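import Pool.Agent.Y28.LR.Stm

set_option autoImplicit false

/-!
# The transfinite chain of extensions
-/

namespace Pool.Agent.Y28.LR

open Set

section basics

variable {G X : Type} [Group G] {F : Subgroup G} (b : FreeGroup X ≃* F)

theorem FY_mono {Y Z : Set X} (h : Y ⊆ Z) : FY b Y ≤ FY b Z :=
  Subgroup.closure_mono (Set.image_mono h)

theorem FY_le (Y : Set X) : FY b Y ≤ F := by
  refine (Subgroup.closure_le _).2 ?_
  rintro _ ⟨x, -, rfl⟩
  exact (b (FreeGroup.of x)).2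

theorem mem_FY_of {Y : Set X} {x : X} (hx : x ∈ Y) : ((b (FreeGroup.of x) : F) : G) ∈ FY b Y :=
  Subgroup.subset_closure ⟨x, hx, rfl⟩

theorem FY_univ : FY b univ = F := by
  refine le_antisymm (FY_le b _) fun f hf => ?_
  obtain ⟨w, hw⟩ := b.surjective ⟨f, hf⟩
  have key : ∀ w : FreeGroup X, ((b w : F) : G) ∈ FY b univ := by
    intro w
    induction w using FreeGroup.induction_on with
    | C1 => simp
    | of x => exact mem_FY_of b (mem_univ x)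
    | inv_of x hx => simpa using (FY b univ).inv_mem hx
    | mul x y hx hy => simpa using (FY b univ).mul_mem hx hy
  have := key w
  rw [hw] at this
  exact this

theorem FY_supp {Y : Set X} {f : G} (hf : f ∈ FY b Y) :
    ∃ S : Set X, S.Finite ∧ S ⊆ Y ∧ f ∈ FY b S := by
  unfold FY at hf
  induction hf using Subgroup.closure_induction with
  | mem x hx =>
    obtain ⟨y, hy, rfl⟩ := hx
    exact ⟨{y}, finite_singleton y, by simpa using hy, mem_FY_of b rfl⟩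
  | one => exact ⟨∅, finite_empty, empty_subset _, Subgroup.one_mem _⟩
  | mul x y _ _ hx hy =>
    obtain ⟨S, h1, h2, h3⟩ := hx
    obtain ⟨S', h1', h2', h3'⟩ := hy
    exact ⟨S ∪ S', h1.union h1', union_subset h2 h2', Subgroup.mul_mem _
      (FY_mono b subset_union_left h3) (FY_mono b subset_union_right h3')⟩
  | inv x _ hx =>
    obtain ⟨S, h1, h2, h3⟩ := hx
    exact ⟨S, h1, h2, Subgroup.inv_mem _ h3⟩

/-- `H` normalises `FY b Y` -/
def Nm (H : Subgroup G) (Y : Set X) : Prop := ∀ h ∈ H, ∀ x ∈ FY b Y, h * x * h⁻¹ ∈ FY b Y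

theorem nm_of_gen {H : Subgroup G} {Y : Set X}
    (h : ∀ h ∈ H, ∀ y ∈ Y, h * ((b (FreeGroup.of y) : F) : G) * h⁻¹ ∈ FY b Y) : Nm b H Y := by
  intro g hg x hx
  have h1 : FY b Y ≤ (FY b Y).comap (MulAut.conj g).toMonoidHom := by
    refine (Subgroup.closure_le _).2 ?_
    rintro _ ⟨y, hy, rfl⟩
    exact h g hg y hy
  exact h1 hx

theorem nm_gen {H : Subgroup G} {Y : Set X} (h : Nm b H Y) {g : G} (hg : g ∈ H) {y : X}
    (hy : y ∈ Y) : g * ((b (FreeGroup.of y) : F) : G) * g⁻¹ ∈ FY b Y :=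
  h g hg _ (mem_FY_of b hy)

theorem mem_RR {H : Subgroup G} {Y : Set X} {f : G} :
    f ∈ RR b H Y ↔ ∀ h ∈ H, h⁻¹ * f * h ∈ FY b Y := by
  unfold RR
  rw [Subgroup.mem_iInf]
  constructor
  · intro h g hg
    obtain ⟨x, hx, hxf⟩ := Subgroup.mem_map.1 (h ⟨g, hg⟩)
    have : x = g⁻¹ * f * g := by
      rw [← hxf]
      simp [MulAut.conj_apply, mul_assoc]
    rw [← this]
    exact hx
  · intro h g
    refine Subgroup.mem_map.2 ⟨(g : G)⁻¹ * f * g, h g g.2, ?_⟩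
    simp [MulAut.conj_apply, mul_assoc]

theorem RR_le (H : Subgroup G) (Y : Set X) : RR b H Y ≤ FY b Y := by
  intro f hf
  simpa using (mem_RR b).1 hf 1 H.one_mem

theorem RR_mono {H : Subgroup G} {Y Z : Set X} (h : Y ⊆ Z) : RR b H Y ≤ RR b H Z := by
  intro f hf
  rw [mem_RR] at hf ⊢
  exact fun g hg => FY_mono b h (hf g hg)

theorem RR_eq {H : Subgroup G} {Y : Set X} (h : Nm b H Y) : RR b H Y = FY b Y := by
  refine le_antisymm (RR_le b H Y) fun f hf => ?_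
  rw [mem_RR]
  intro g hg
  have := h g⁻¹ (H.inv_mem hg) f hf
  rwa [inv_inv] at this

theorem RR_conj {H : Subgroup G} {Y : Set X} {g f : G} (hg : g ∈ H) (hf : f ∈ RR b H Y) :
    g * f * g⁻¹ ∈ RR b H Y := by
  rw [mem_RR] at hf ⊢
  intro h hh
  have := hf (g⁻¹ * h) (H.mul_mem (H.inv_mem hg) hh)
  have h2 : (g⁻¹ * h)⁻¹ * f * (g⁻¹ * h) = h⁻¹ * (g * f * g⁻¹) * h := by group
  rwa [h2] at this

theorem RR_large [F.Normal] [F.FiniteIndex] {H : Subgroup G} {Y' : Set X} (hN : Nm b H Y') {f : G}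
    (hf : f ∈ FY b Y') : ∃ S : Set X, S.Finite ∧ S ⊆ Y' ∧
      ∀ Z, S ⊆ Z → F ⊓ H ≤ FY b Z → f ∈ RR b H Z := by
  classical
  have h1 : ∀ q : G ⧸ F, ∃ t : G, (∃ h ∈ H, (h : G ⧸ F) = q) → t ∈ H ∧ (t : G ⧸ F) = q := by
    intro q
    by_cases h : ∃ h ∈ H, (h : G ⧸ F) = q
    · obtain ⟨t, ht, htq⟩ := h
      exact ⟨t, fun _ => ⟨ht, htq⟩⟩
    · exact ⟨1, fun h' => absurd h' h⟩
  choose t ht using h1
  have h2 : ∀ q : G ⧸ F, ∃ S : Set X, S.Finite ∧ S ⊆ Y' ∧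
      (t q ∈ H → (t q)⁻¹ * f * t q ∈ FY b S) := by
    intro q
    by_cases h : t q ∈ H
    · have h3 := hN (t q)⁻¹ (H.inv_mem h) f hf
      rw [inv_inv] at h3
      obtain ⟨S, h4, h5, h6⟩ := FY_supp b h3
      exact ⟨S, h4, h5, fun _ => h6⟩
    · exact ⟨∅, finite_empty, empty_subset _, fun h' => absurd h' h⟩
  choose S hS1 hS2 hS3 using h2
  refine ⟨⋃ q, S q, finite_iUnion hS1, iUnion_subset hS2, fun Z hZ hA => ?_⟩
  rw [mem_RR]
  intro h hh
  obtain ⟨h3, h4⟩ := ht (h : G ⧸ F) ⟨h, hh, rfl⟩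
  set u := t (h : G ⧸ F) with hu
  have h5 : u⁻¹ * f * u ∈ FY b Z :=
    FY_mono b ((subset_iUnion S _).trans hZ) (hS3 (h : G ⧸ F) h3)
  have h6 : u⁻¹ * h ∈ F := QuotientGroup.eq.1 h4
  have h7 : u⁻¹ * h ∈ FY b Z := hA ⟨h6, H.mul_mem (H.inv_mem h3) hh⟩
  have h8 : h⁻¹ * f * h = (u⁻¹ * h)⁻¹ * (u⁻¹ * f * u) * (u⁻¹ * h) := by group
  rw [h8]
  exact Subgroup.mul_mem _ (Subgroup.mul_mem _ (Subgroup.inv_mem _ h7) h5) h7

/-- products -/
theorem mem_sup_of_normalised {K H : Subgroup G} (h : ∀ g ∈ H, ∀ k ∈ K, g * k * g⁻¹ ∈ K) {x : G} :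
    x ∈ K ⊔ H ↔ ∃ k ∈ K, ∃ g ∈ H, x = k * g := by
  constructor
  · intro hx
    let L : Subgroup G :=
      { carrier := {x | ∃ k ∈ K, ∃ g ∈ H, x = k * g}
        mul_mem' := by
          rintro _ _ ⟨k, hk, g, hg, rfl⟩ ⟨k', hk', g', hg', rfl⟩
          exact ⟨k * (g * k' * g⁻¹), K.mul_mem hk (h g hg k' hk'), g * g', H.mul_mem hg hg',
            by group⟩
        one_mem' := ⟨1, K.one_mem, 1, H.one_mem, by simp⟩
        inv_mem' := by
          rintro _ ⟨k, hk, g, hg, rfl⟩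
          have := h g⁻¹ (H.inv_mem hg) k⁻¹ (K.inv_mem hk)
          rw [inv_inv] at this
          exact ⟨g⁻¹ * k⁻¹ * g, this, g⁻¹, H.inv_mem hg, by group⟩ }
    have h1 : K ⊔ H ≤ L := sup_le (fun k hk => ⟨k, hk, 1, H.one_mem, by simp⟩)
      (fun g hg => ⟨1, K.one_mem, g, hg, by simp⟩)
    exact h1 hx
  · rintro ⟨k, hk, g, hg, rfl⟩
    exact Subgroup.mul_mem _ (Subgroup.mem_sup_left hk) (Subgroup.mem_sup_right hg)

theorem countable_of_fg {H : Subgroup G} (hH : H.FG) : Countable H := by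
  have h1 : Group.FG H := (Group.fg_iff_subgroup_fg H).2 hH
  obtain ⟨α, hα, φ, hφ⟩ := Group.fg_iff_exists_freeGroup_hom_surjective_finite.1 h1
  have h2 : Countable (FreeGroup α) := by
    have : Function.Surjective (FreeGroup.mk : List (α × Bool) → FreeGroup α) :=
      Quot.exists_rep
    exact this.countable
  exact hφ.countable

theorem exists_closure [F.Normal] {H : Subgroup G} [Countable H] (Z : Set X) (hZ : Z.Countable) :
    ∃ Z' : Set X, Z'.Countable ∧ Z ⊆ Z' ∧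
      ∀ h ∈ H, ∀ y ∈ Z', h * ((b (FreeGroup.of y) : F) : G) * h⁻¹ ∈ FY b Z' := by
  have h1 : ∀ (h : H) (y : X), ∃ S : Set X, S.Finite ∧
      (h : G) * ((b (FreeGroup.of y) : F) : G) * (h : G)⁻¹ ∈ FY b S := by
    intro h y
    have h2 : (h : G) * ((b (FreeGroup.of y) : F) : G) * (h : G)⁻¹ ∈ FY b univ := by
      rw [FY_univ]
      exact ‹F.Normal›.conj_mem _ (b (FreeGroup.of y)).2 _
    obtain ⟨S, h3, -, h4⟩ := FY_supp b h2
    exact ⟨S, h3, h4⟩
  choose S hS1 hS2 using h1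
  let W : ℕ → Set X := fun n => Nat.rec Z (fun _ A => A ∪ ⋃ h : H, ⋃ y ∈ A, S h y) n
  have hW0 : W 0 = Z := rfl
  have hWs : ∀ n, W (n + 1) = W n ∪ ⋃ h : H, ⋃ y ∈ W n, S h y := fun n => rfl
  have hWc : ∀ n, (W n).Countable := by
    intro n
    induction n with
    | zero => exact hZ
    | succ n ih =>
      rw [hWs]
      exact ih.union (countable_iUnion fun h => ih.biUnion fun y _ => (hS1 h y).countable)
  refine ⟨⋃ n, W n, countable_iUnion hWc, subset_iUnion W 0, ?_⟩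
  intro h hh y hy
  obtain ⟨n, hn⟩ := mem_iUnion.1 hy
  refine FY_mono b ?_ (hS2 ⟨h, hh⟩ y)
  refine Subset.trans ?_ (subset_iUnion W (n + 1))
  rw [hWs]
  refine Subset.trans ?_ subset_union_right
  exact (subset_iUnion₂ (s := fun y (_ : y ∈ W n) => S ⟨h, hh⟩ y) y hn).trans
    (subset_iUnion (fun h : H => ⋃ y ∈ W n, S h y) ⟨h, hh⟩)

end basics

section union

variable {G N : Type} [Group G] [Group N] [MulDistribMulAction G N]

/-- order on partial crossed homomorphisms -/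
def PLe (p q : Subgroup G × (G → N)) : Prop := p.1 ≤ q.1 ∧ ∀ k ∈ p.1, q.2 k = p.2 k

theorem exists_union (c : Set (Subgroup G × (G → N)))
    (hc : ∀ p ∈ c, ∀ q ∈ c, PLe p q ∨ PLe q p) (hch : ∀ p ∈ c, CH p.1 p.2) (K : Subgroup G)
    (hK : ∀ g, g ∈ K → ∃ p ∈ c, g ∈ p.1) :
    ∃ φ : G → N, CH K φ ∧ ∀ p ∈ c, ∀ k ∈ p.1, φ k = p.2 k := by
  classical
  let φ : G → N := fun g => if h : ∃ p ∈ c, g ∈ p.1 then h.choose.2 g else 1
  have hφ : ∀ p ∈ c, ∀ k ∈ p.1, φ k = p.2 k := by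
    intro p hp k hk
    have h : ∃ p ∈ c, k ∈ p.1 := ⟨p, hp, hk⟩
    have h1 := h.choose_spec
    have h2 : φ k = h.choose.2 k := by
      simp only [φ, dif_pos h]
    rw [h2]
    rcases hc p hp _ h1.1 with h3 | h3
    · exact h3.2 k hk
    · exact (h3.2 k h1.2).symm
  refine ⟨φ, ?_, hφ⟩
  intro x hx y hy
  obtain ⟨p, hp, hxp⟩ := hK x hx
  obtain ⟨q, hq, hyq⟩ := hK y hy
  rcases hc p hp q hq with h | h
  · have hxq := h.1 hxp
    rw [hφ q hq _ (q.1.mul_mem hxq hyq), hφ q hq x hxq, hφ q hq y hyq]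
    exact hch q hq x hxq y hyq
  · have hyp := h.1 hyq
    rw [hφ p hp _ (p.1.mul_mem hxp hyp), hφ p hp x hxp, hφ p hp y hyp]
    exact hch p hp x hxp y hyp

end union

section chain

variable {G X Ω : Type} [Group G] [MulAction G Ω] {F : Subgroup G} [F.Normal] [F.FiniteIndex]
  (b : FreeGroup X ≃* F) (H : Subgroup G)

/-- a countable step -/
theorem omega_step (hstep : P_stepRR) (Y Y₁ Y' : Set X) (h01 : Y ⊆ Y₁) (h1 : Y₁ ⊆ Y')
    (hfin : (Y₁ \ Y).Finite) (hcount : (Y' \ Y).Countable) (hN : Nm b H Y) (hN' : Nm b H Y')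
    (hA : F ⊓ H ≤ FY b Y₁) (φ₀ : G → FreeGroup Ω) (hφ₀ : CH (RR b H Y₁ ⊔ H) φ₀) :
    ∃ φ : G → FreeGroup Ω, CH (FY b Y' ⊔ H) φ ∧ ∀ k ∈ RR b H Y₁ ⊔ H, φ k = φ₀ k := by
  classical
  obtain ⟨f, hf⟩ : ∃ f : X → ℕ, InjOn f (Y' \ Y) := by
    exact Set.countable_iff_exists_injOn.1 hcount
  let Z : ℕ → Set X := fun n => Y₁ ∪ {x | x ∈ Y' \ Y ∧ f x < n}
  have hZ0 : Z 0 = Y₁ := by simp [Z]
  have hZs : ∀ n, Z n ⊆ Z (n + 1) := fun n =>
    union_subset_union_right _ (fun x hx => ⟨hx.1, hx.2.trans (Nat.lt_succ_self n)⟩)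
  have hZmono : Monotone Z := monotone_nat_of_le_succ hZs
  have hZ1 : ∀ n, Y₁ ⊆ Z n := fun n => subset_union_left
  have hZY' : ∀ n, Z n ⊆ Y' := fun n => union_subset h1 (fun x hx => hx.1.1)
  have hZfin : ∀ n, (Z n \ Y).Finite := by
    intro n
    have h2 : Z n \ Y ⊆ (Y₁ \ Y) ∪ {x | x ∈ Y' \ Y ∧ f x < n} := by
      rintro x ⟨hx | hx, hxY⟩
      · exact Or.inl ⟨hx, hxY⟩
      · exact Or.inr hx
    refine (hfin.union ?_).subset h2
    refine Set.Finite.of_finite_image (f := f) ?_ (hf.mono fun x hx => hx.1)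
    refine (finite_Iio n).subset ?_
    rintro _ ⟨x, hx, rfl⟩
    exact hx.2
  have hZcov : ∀ S : Set X, S.Finite → S ⊆ Y' → Y ⊆ Y₁ → ∃ n, S ⊆ Z n := by
    intro S hS hSY hY
    obtain ⟨n, hn⟩ : ∃ n, ∀ x ∈ S, f x < n := by
      obtain ⟨m, hm⟩ := (hS.image f).bddAbove
      exact ⟨m + 1, fun x hx => Nat.lt_succ_of_le (hm (mem_image_of_mem f hx))⟩
    refine ⟨n, fun x hx => ?_⟩
    by_cases hxY : x ∈ Y
    · exact Or.inl (hY hxY)
    · exact Or.inr ⟨⟨hSY hx, hxY⟩, hn x hx⟩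
  have hnext : ∀ n (φ : G → FreeGroup Ω), CH (RR b H (Z n) ⊔ H) φ →
      ∃ φ' : G → FreeGroup Ω, CH (RR b H (Z (n + 1)) ⊔ H) φ' ∧
        ∀ k ∈ RR b H (Z n) ⊔ H, φ' k = φ k := by
    intro n φ hφ
    exact hstep G X Ω F b H Y (Z n) (Z (n + 1)) (h01.trans (hZ1 n)) (hZs n) (hZfin (n + 1)) hN
      (hA.trans (FY_mono b (hZ1 n))) φ hφ
  choose! nx hnx1 hnx2 using hnext
  let ψ : ℕ → (G → FreeGroup Ω) := fun n => Nat.rec φ₀ (fun n φ => nx n φ) n
  have hψ0 : ψ 0 = φ₀ := rfl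
  have hψs : ∀ n, ψ (n + 1) = nx n (ψ n) := fun n => rfl
  have hψ : ∀ n, CH (RR b H (Z n) ⊔ H) (ψ n) := by
    intro n
    induction n with
    | zero => rw [hZ0]; exact hφ₀
    | succ n ih => rw [hψs]; exact hnx1 n _ ih
  have hψe : ∀ n, ∀ k ∈ RR b H (Z n) ⊔ H, ψ (n + 1) k = ψ n k := by
    intro n k hk
    rw [hψs]
    exact hnx2 n _ (hψ n) k hk
  have hKmono : ∀ {m n : ℕ}, m ≤ n → RR b H (Z m) ⊔ H ≤ RR b H (Z n) ⊔ H :=
    fun h => sup_le_sup_right (RR_mono b (hZmono h)) H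
  have hψe2 : ∀ m n, m ≤ n → ∀ k ∈ RR b H (Z m) ⊔ H, ψ n k = ψ m k := by
    intro m n hmn
    induction n, hmn using Nat.le_induction with
    | base => exact fun _ _ => rfl
    | succ n hmn ih =>
      intro k hk
      rw [hψe n k (hKmono hmn hk), ih k hk]
  obtain ⟨φ, h2, h3⟩ := exists_union
    (Set.range fun n => ((RR b H (Z n) ⊔ H, ψ n) : Subgroup G × (G → FreeGroup Ω)))
    (by
      rintro _ ⟨m, rfl⟩ _ ⟨n, rfl⟩
      rcases le_total m n with h | h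
      · exact Or.inl ⟨hKmono h, hψe2 m n h⟩
      · exact Or.inr ⟨hKmono h, hψe2 n m h⟩)
    (by
      rintro _ ⟨m, rfl⟩
      exact hψ m)
    (FY b Y' ⊔ H)
    (by
      intro g hg
      obtain ⟨k, hk, h, hh, rfl⟩ := (mem_sup_of_normalised hN').1 hg
      obtain ⟨S, hS1, hS2, hS3⟩ := RR_large b hN' hk
      obtain ⟨n, hn⟩ := hZcov S hS1 hS2 h01
      exact ⟨_, ⟨n, rfl⟩, Subgroup.mul_mem _ (Subgroup.mem_sup_left
        (hS3 (Z n) hn (hA.trans (FY_mono b (hZ1 n))))) (Subgroup.mem_sup_right hh)⟩)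
  refine ⟨φ, h2, fun k hk => ?_⟩
  have := h3 _ ⟨0, rfl⟩ k (by
    change k ∈ RR b H (Z 0) ⊔ H
    rw [hZ0]
    exact hk)
  exact this

theorem chain (hstep : P_stepRR) : P_chain := by
  intro G X Ω _ _ F _ _ b H hH Y₀ hY₀ hA φ₀ hφ₀
  classical
  have hcH : Countable H := countable_of_fg hH
  obtain ⟨Y', hY'c, hY', hY'N⟩ := exists_closure b (H := H) Y₀ hY₀.countable
  have hN' : Nm b H Y' := nm_of_gen b hY'N
  have hNe : Nm b H (∅ : Set X) := nm_of_gen b (by simp)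
  obtain ⟨φ₁, h1, h2⟩ := omega_step b H hstep ∅ Y₀ Y' (empty_subset _) hY'
    (by simpa using hY₀) (by simpa using hY'c) hNe hN' hA φ₀ hφ₀
  -- Zorn
  let P : Set X × (G → FreeGroup Ω) → Prop := fun p =>
    Nm b H p.1 ∧ Y' ⊆ p.1 ∧ CH (FY b p.1 ⊔ H) p.2 ∧ ∀ k ∈ FY b Y' ⊔ H, p.2 k = φ₁ k
  let r : {p // P p} → {p // P p} → Prop := fun p q =>
    p.1.1 ⊆ q.1.1 ∧ ∀ k ∈ FY b p.1.1 ⊔ H, q.1.2 k = p.1.2 k
  have htrans : ∀ {p q s : {p // P p}}, r p q → r q s → r p s := by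
    intro p q s hpq hqs
    refine ⟨hpq.1.trans hqs.1, fun k hk => ?_⟩
    rw [hqs.2 k (sup_le_sup_right (FY_mono b hpq.1) H hk), hpq.2 k hk]
  have : Nonempty {p // P p} := ⟨⟨(Y', φ₁), hN', Subset.rfl, h1, fun _ _ => rfl⟩⟩
  obtain ⟨m, hm⟩ := exists_maximal_of_nonempty_chains_bounded (r := r) (by
    intro c hc hcne
    let Y : Set X := ⋃ p ∈ c, p.1.1
    have hsub : ∀ p ∈ c, p.1.1 ⊆ Y := fun p hp =>
      subset_iUnion₂ (s := fun (p : {p // P p}) (_ : p ∈ c) => p.1.1) p hp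
    have hNY : Nm b H Y := by
      refine nm_of_gen b ?_
      intro h hh y hy
      obtain ⟨p, hp, hyp⟩ := mem_iUnion₂.1 hy
      exact FY_mono b (hsub p hp) (nm_gen b p.2.1 hh hyp)
    have hcomp : ∀ p ∈ c, ∀ q ∈ c, r p q ∨ r q p := by
      intro p hp q hq
      by_cases h : p = q
      · subst h
        exact Or.inl ⟨Subset.rfl, fun _ _ => rfl⟩
      · exact hc hp hq h
    -- finite subsets of `Y` are in a member
    have hfinc : ∀ S : Set X, S.Finite → S ⊆ Y → ∃ p ∈ c, S ⊆ p.1.1 := by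
      intro S hS
      induction S, hS using Set.Finite.induction_on with
      | empty =>
        intro _
        obtain ⟨p, hp⟩ := hcne
        exact ⟨p, hp, empty_subset _⟩
      | insert _ _ ih =>
        intro hSY
        rename_i a S _ _
        obtain ⟨p, hp, hSp⟩ := ih ((subset_insert _ _).trans hSY)
        obtain ⟨q, hq, haq⟩ := mem_iUnion₂.1 (hSY (mem_insert a S))
        rcases hcomp p hp q hq with h | h
        · exact ⟨q, hq, insert_subset haq (hSp.trans h.1)⟩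
        · exact ⟨p, hp, insert_subset (h.1 haq) hSp⟩
    obtain ⟨φ, h3, h4⟩ := exists_union
      ((fun p : {p // P p} => ((FY b p.1.1 ⊔ H, p.1.2) : Subgroup G × (G → FreeGroup Ω))) '' c)
      (by
        rintro _ ⟨p, hp, rfl⟩ _ ⟨q, hq, rfl⟩
        rcases hcomp p hp q hq with h | h
        · exact Or.inl ⟨sup_le_sup_right (FY_mono b h.1) H, h.2⟩
        · exact Or.inr ⟨sup_le_sup_right (FY_mono b h.1) H, h.2⟩)
      (by
        rintro _ ⟨p, hp, rfl⟩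
        exact p.2.2.2.1)
      (FY b Y ⊔ H)
      (by
        intro g hg
        obtain ⟨k, hk, h, hh, rfl⟩ := (mem_sup_of_normalised hNY).1 hg
        obtain ⟨S, hS1, hS2, hS3⟩ := FY_supp b hk
        obtain ⟨p, hp, hSp⟩ := hfinc S hS1 hS2
        exact ⟨_, ⟨p, hp, rfl⟩, Subgroup.mul_mem _ (Subgroup.mem_sup_left (FY_mono b hSp hS3))
          (Subgroup.mem_sup_right hh)⟩)
    obtain ⟨p₀, hp₀⟩ := hcne
    refine ⟨⟨(Y, φ), hNY, p₀.2.2.1.trans (hsub p₀ hp₀), h3, fun k hk => ?_⟩, fun p hp =>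
      ⟨hsub p hp, fun k hk => h4 _ ⟨p, hp, rfl⟩ k hk⟩⟩
    have h5 := h4 _ ⟨p₀, hp₀, rfl⟩ k (sup_le_sup_right (FY_mono b p₀.2.2.1) H hk)
    change φ k = φ₁ k
    rw [h5]
    exact p₀.2.2.2.2 k hk) htrans
  -- the maximal element is everything
  obtain ⟨⟨Y, φ⟩, hNY, hYY, hch, hext⟩ := m
  have hYu : Y = univ := by
    by_contra hne
    obtain ⟨x, hx⟩ := (Set.ne_univ_iff_exists_notMem Y).1 hne
    obtain ⟨Z, hZc, hxZ, hZN⟩ := exists_closure b (H := H) {x} (countable_singleton x)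
    have hN2 : Nm b H (Y ∪ Z) := by
      refine nm_of_gen b ?_
      rintro h hh y (hy | hy)
      · exact FY_mono b subset_union_left (nm_gen b hNY hh hy)
      · exact FY_mono b subset_union_right (hZN h hh y hy)
    have hAY : F ⊓ H ≤ FY b Y := hA.trans (FY_mono b (hY'.trans hYY))
    obtain ⟨φ', h3, h4⟩ := omega_step b H hstep Y Y (Y ∪ Z) Subset.rfl subset_union_left
      (by simp) (hZc.mono (by
        rintro y ⟨hy | hy, hy'⟩
        · exact absurd hy hy'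
        · exact hy)) hNY hN2 hAY φ (by rw [RR_eq b hNY]; exact hch)
    rw [RR_eq b hNY] at h4
    have h5 := hm ⟨(Y ∪ Z, φ'), hN2, hYY.trans subset_union_left, h3, fun k hk => by
      change φ' k = φ₁ k
      rw [h4 k (sup_le_sup_right (FY_mono b hYY) H hk)]
      exact hext k hk⟩ ⟨subset_union_left, h4⟩
    exact hx (h5.1 (Or.inr (hxZ rfl)))
  refine ⟨φ, ?_, fun k hk => ?_⟩
  · have := hch
    change CH (FY b Y ⊔ H) φ at this
    rw [hYu, FY_univ] at this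
    exact this
  · have h3 : k ∈ FY b Y' ⊔ H := by
      refine sup_le_sup_right ?_ H hk
      exact (RR_le b H Y₀).trans (FY_mono b hY')
    have h4 : φ k = φ₁ k := hext k h3
    rw [h4, h2 k hk]

end chain

end Pool.Agent.Y28.LR
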