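import Pool.Agent.Y28.LR.Chain

set_option autoImplicit false

/-!
# Assembly: virtually free groups have property (LR)
-/

namespace Pool.Agent.Y28.LR

open Set

/-- the conclusion for a subgroup `H` of `G` -/
def VR {G : Type} [Group G] (H : Subgroup G) : Prop :=
  ∃ K : Subgroup G, K.FiniteIndex ∧ H ≤ K ∧
    ∃ ρ : K →* G, (∀ k : K, ρ k ∈ H) ∧ ∀ h : G, ∀ hk : h ∈ K, h ∈ H → ρ ⟨h, hk⟩ = h

theorem fg_map {A B : Type} [Group A] [Group B] {H : Subgroup A} (h : H.FG) (f : A →* B) :
    (H.map f).FG := by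
  classical
  obtain ⟨S, hS⟩ := h
  refine ⟨S.image f, ?_⟩
  rw [Finset.coe_image, ← MonoidHom.map_closure, hS]

theorem isFree_of_inj {A B : Type} [Group A] [Group B] [IsFreeGroup B] (f : A →* B)
    (hf : Function.Injective f) : IsFreeGroup A :=
  IsFreeGroup.ofMulEquiv (MonoidHom.ofInjective hf).symm

section finite

variable {Q Ω : Type} [Group Q] [MulAction Q Ω]

open Classical in
/-- the projection of a free group to the subgroup generated by a part of the basis -/
noncomputable def killTo (S : Set Ω) : FreeGroup Ω →* FreeGroup S :=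
  FreeGroup.lift fun ω => if h : ω ∈ S then FreeGroup.of ⟨ω, h⟩ else 1

theorem killTo_of_mem {S : Set Ω} {ω : Ω} (h : ω ∈ S) :
    killTo S (FreeGroup.of ω) = FreeGroup.of ⟨ω, h⟩ := by
  simp [killTo, h]

theorem killTo_of_not_mem {S : Set Ω} {ω : Ω} (h : ω ∉ S) :
    killTo S (FreeGroup.of ω) = 1 := by
  simp [killTo, h]

end finite

/-- the main case: `G = F H` -/
theorem main_case (hchain : P_chain) (hbase : P_base) (hlrW : P_lrW) (hrrfg : P_rrfg)
    (G X : Type) [Group G] (F : Subgroup G) [F.Normal] [F.FiniteIndex] (b : FreeGroup X ≃* F)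
    (H : Subgroup G) (hH : H.FG) (hFH : F ⊔ H = ⊤) : VR H := by
  classical
  -- the intersection is finitely generated
  have hHfg : Group.FG H := (Group.fg_iff_subgroup_fg H).2 hH
  have hA : ∃ Y : Set X, Y.Finite ∧ F ⊓ H ≤ FY b Y := by
    have h1 : Group.FG (F.subgroupOf H) := inferInstance
    have h2 : (F.subgroupOf H).FG := (Group.fg_iff_subgroup_fg _).1 h1
    have h3 : ((F.subgroupOf H).map H.subtype).FG := fg_map h2 _
    rw [Subgroup.subgroupOf_map_subtype] at h3
    obtain ⟨S, hS⟩ := h3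
    have h4 : ∀ s : G, ∃ Z : Set X, Z.Finite ∧ (s ∈ F → s ∈ FY b Z) := by
      intro s
      by_cases h : s ∈ F
      · have h5 : s ∈ FY b univ := by rw [FY_univ]; exact h
        obtain ⟨Z, h6, -, h7⟩ := FY_supp b h5
        exact ⟨Z, h6, fun _ => h7⟩
      · exact ⟨∅, finite_empty, fun h' => absurd h' h⟩
    choose Z hZ1 hZ2 using h4
    refine ⟨⋃ s ∈ S, Z s, S.finite_toSet.biUnion fun s _ => hZ1 s, ?_⟩
    rw [← hS]
    refine (Subgroup.closure_le _).2 fun s hs => ?_
    have h5 : s ∈ F ⊓ H := by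
      rw [← hS]
      exact Subgroup.subset_closure hs
    exact FY_mono b (subset_iUnion₂ (s := fun s (_ : s ∈ S) => Z s) s hs) (hZ2 s h5.1)
  obtain ⟨Y, hY, hA⟩ := hA
  set K := RR b H Y ⊔ H with hK
  have hRF : RR b H Y ≤ F := (RR_le b H Y).trans (FY_le b Y)
  have hAR : F ⊓ H ≤ RR b H Y := by
    intro a ha
    rw [mem_RR]
    intro h hh
    refine hA ⟨?_, H.mul_mem (H.mul_mem (H.inv_mem hh) ha.2) hh⟩
    have := ‹F.Normal›.conj_mem a ha.1 h⁻¹
    rwa [inv_inv] at this
  have hFK : F ⊓ K = RR b H Y := by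
    refine le_antisymm ?_ (le_inf hRF (hK ▸ le_sup_left))
    rintro x ⟨hxF, hxK⟩
    rw [hK] at hxK
    obtain ⟨k, hk, g, hg, rfl⟩ :=
      (mem_sup_of_normalised (K := RR b H Y) (H := H) (fun g hg k hk => RR_conj b hg hk)).1 hxK
    refine Subgroup.mul_mem _ hk (hAR ⟨?_, hg⟩)
    have := F.mul_mem (F.inv_mem (hRF hk)) hxF
    rwa [inv_mul_cancel_left] at this
  -- `K` is finitely generated
  have hKfg : Group.FG K := by
    obtain ⟨S, hS⟩ := hrrfg G X F b H ∅ Y (empty_subset _) (by simpa using hY)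
      (nm_of_gen b (by simp)) hA
    have h1 : FY b (∅ : Set X) = ⊥ := by simp [FY]
    rw [h1, bot_sup_eq] at hS
    refine (Group.fg_iff_subgroup_fg K).2 ?_
    rw [hK, hS]
    exact Subgroup.FG.sup ⟨S, rfl⟩ hH
  -- the free subgroup of `K`
  have hFfree : IsFreeGroup F := IsFreeGroup.ofMulEquiv b
  have hfree : IsFreeGroup (F.subgroupOf K) := by
    let f : F.subgroupOf K →* F :=
      { toFun := fun x => ⟨((x : K) : G), x.2⟩
        map_one' := rfl
        map_mul' := fun _ _ => rfl }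
    refine isFree_of_inj f ?_
    intro x y hxy
    apply Subtype.ext
    apply Subtype.ext
    exact congrArg (fun z : F => (z : G)) hxy
  obtain ⟨Ω, act, φ, hφF, hφ, hinj⟩ := hbase K (IsFreeGroup.Generators (F.subgroupOf K)) hKfg
    (F.subgroupOf K) (IsFreeGroup.toFreeGroup (F.subgroupOf K)).symm
  -- `K` maps onto `G ⧸ F`
  let Q := G ⧸ F
  let π : K →* Q := (QuotientGroup.mk' F).comp K.subtype
  have hπ : Function.Surjective π := by
    intro q
    obtain ⟨g, rfl⟩ := QuotientGroup.mk_surjective q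
    have hg : g ∈ F ⊔ H := by rw [hFH]; trivial
    obtain ⟨k, hk, h, hh, rfl⟩ := (mem_sup_of_normalised (K := F) (H := H)
      (fun g _ k hk => ‹F.Normal›.conj_mem k hk g)).1 hg
    refine ⟨⟨h, hK ▸ Subgroup.mem_sup_right hh⟩, ?_⟩
    change ((h : G) : Q) = ((k * h : G) : Q)
    rw [QuotientGroup.eq]
    have := ‹F.Normal›.conj_mem k hk h⁻¹
    rw [inv_inv] at this
    rwa [mul_assoc] at this
  have hπk : π.ker = F.subgroupOf K := by
    ext x
    rw [MonoidHom.mem_ker, Subgroup.mem_subgroupOf]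
    change ((x : G) : Q) = 1 ↔ _
    rw [QuotientGroup.eq_one_iff]
  -- the action of `Q`
  let θ : K ⧸ π.ker →* Equiv.Perm Ω := QuotientGroup.lift π.ker (MulAction.toPermHom K Ω) (by
    intro x hx
    rw [hπk] at hx
    rw [MonoidHom.mem_ker]
    ext ω
    exact hφF x hx ω)
  let e := QuotientGroup.quotientKerEquivOfSurjective π hπ
  let θ' : Q →* Equiv.Perm Ω := θ.comp e.symm.toMonoidHom
  have hθ' : ∀ (k : K) (ω : Ω), θ' ((k : G) : Q) ω = k • ω := by
    intro k ω
    have h1 : e.symm ((k : G) : Q) = ((k : K) : K ⧸ π.ker) := by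
      rw [MulEquiv.symm_apply_eq]
      rfl
    change θ (e.symm ((k : G) : Q)) ω = k • ω
    rw [h1]
    rfl
  let actQ : MulAction Q Ω := MulAction.compHom Ω θ'
  have hactQ : ∀ (k : K) (ω : Ω), ((k : G) : Q) • ω = k • ω := hθ'
  -- reduction to a finite set
  have hfinset : ∃ S : Set Ω, S.Finite ∧ (∀ (q : Q), ∀ ω ∈ S, q • ω ∈ S) ∧
      ∀ h : K, (h : G) ∈ H → FreeGroup.map (Subtype.val : S → Ω) (killTo S (φ h)) = φ h := by
    -- the support of an element
    have hsupp : ∀ x : FreeGroup Ω, ∃ S : Set Ω, S.Finite ∧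
        x ∈ Subgroup.closure (FreeGroup.of '' S) := by
      intro x
      induction x using FreeGroup.induction_on with
      | C1 => exact ⟨∅, finite_empty, Subgroup.one_mem _⟩
      | of ω => exact ⟨{ω}, finite_singleton ω, Subgroup.subset_closure ⟨ω, rfl, rfl⟩⟩
      | inv_of ω h =>
        obtain ⟨S, h1, h2⟩ := h
        exact ⟨S, h1, Subgroup.inv_mem _ h2⟩
      | mul x y hx hy =>
        obtain ⟨S, h1, h2⟩ := hx
        obtain ⟨S', h1', h2'⟩ := hy
        exact ⟨S ∪ S', h1.union h1', Subgroup.mul_mem _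
          (Subgroup.closure_mono (image_mono subset_union_left) h2)
          (Subgroup.closure_mono (image_mono subset_union_right) h2')⟩
    choose sp hsp1 hsp2 using hsupp
    -- generators of `H`
    have hHK : H ≤ K := hK ▸ le_sup_right
    obtain ⟨T, hT⟩ := hH
    let T' : Set K := {k | (k : G) ∈ T}
    have hT'f : T'.Finite := T.finite_toSet.preimage Subtype.val_injective.injOn
    let S₀ : Set Ω := ⋃ k ∈ T', sp (φ k)
    have hS₀ : S₀.Finite := hT'f.biUnion fun k _ => hsp1 _
    have hQfin : Finite Q := inferInstance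
    let S : Set Ω := ⋃ q : Q, (fun ω => q • ω) '' S₀
    have hSf : S.Finite := finite_iUnion fun q => hS₀.image _
    have hSinv : ∀ (q : Q), ∀ ω ∈ S, q • ω ∈ S := by
      intro q ω hω
      obtain ⟨q', ω', hω', rfl⟩ := mem_iUnion.1 hω
      exact mem_iUnion.2 ⟨q * q', ω', hω', (mul_smul q q' ω')⟩
    have hS₀S : S₀ ⊆ S := fun ω hω => mem_iUnion.2 ⟨1, ω, hω, one_smul Q ω⟩
    refine ⟨S, hSf, hSinv, ?_⟩
    -- the subgroup generated by `S`
    let L : Subgroup (FreeGroup Ω) := Subgroup.closure (FreeGroup.of '' S)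
    have hLact : ∀ (k : K), ∀ x ∈ L, k • x ∈ L := by
      intro k x hx
      have h1 : L ≤ L.comap (MulDistribMulAction.toMonoidHom (FreeGroup Ω) k) := by
        refine (Subgroup.closure_le _).2 ?_
        rintro _ ⟨ω, hω, rfl⟩
        change k • FreeGroup.of ω ∈ L
        rw [smul_of, ← hactQ]
        exact Subgroup.subset_closure ⟨_, hSinv _ ω hω, rfl⟩
      exact h1 hx
    have hLφ : ∀ h : K, (h : G) ∈ H → φ h ∈ L := by
      have h0 : φ 1 = 1 := by
        have := hφ 1 trivial 1 trivial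
        rw [one_mul, one_smul] at this
        exact mul_eq_left.1 this.symm
      let M : Subgroup K :=
        { carrier := {k | φ k ∈ L}
          mul_mem' := by
            intro x y hx hy
            change φ (x * y) ∈ L
            rw [hφ x trivial y trivial]
            exact L.mul_mem hx (hLact x _ hy)
          one_mem' := by
            change φ 1 ∈ L
            rw [h0]
            exact L.one_mem
          inv_mem' := by
            intro x hx
            change φ x⁻¹ ∈ L
            have h1 := hφ x⁻¹ trivial x trivial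
            rw [inv_mul_cancel, h0] at h1
            rw [eq_inv_of_mul_eq_one_left h1.symm]
            exact L.inv_mem (hLact _ _ hx) }
      have h2 : H ≤ M.map K.subtype := by
        rw [← hT]
        refine (Subgroup.closure_le _).2 fun t ht => ?_
        have htH : t ∈ H := by
          rw [← hT]
          exact Subgroup.subset_closure ht
        refine ⟨⟨t, hHK htH⟩, ?_, rfl⟩
        change φ ⟨t, hHK htH⟩ ∈ L
        refine Subgroup.closure_mono (image_mono ?_) (hsp2 (φ ⟨t, hHK htH⟩))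
        refine Subset.trans ?_ hS₀S
        exact subset_iUnion₂ (s := fun (k : K) (_ : k ∈ T') => sp (φ k)) ⟨t, hHK htH⟩ ht
      intro h hh
      obtain ⟨k, hk, hkh⟩ := h2 hh
      have : k = h := Subtype.ext hkh
      rw [← this]
      exact hk
    intro h hh
    have h3 := hLφ h hh
    have h4 : L ≤ (((FreeGroup.map (Subtype.val : S → Ω)).comp (killTo S)).eqLocus
        (MonoidHom.id (FreeGroup Ω))) := by
      refine (Subgroup.closure_le _).2 ?_
      rintro _ ⟨ω, hω, rfl⟩
      change FreeGroup.map (Subtype.val : S → Ω) (killTo S (FreeGroup.of ω)) = FreeGroup.of ω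
      rw [killTo_of_mem hω, FreeGroup.map.of]
    exact h4 h3
  obtain ⟨S, hSf, hSinv, hSφ⟩ := hfinset
  -- the action on `S`
  let actS : MulAction Q S :=
    { smul := fun q ω => ⟨q • (ω : Ω), hSinv q ω ω.2⟩
      one_smul := fun ω => Subtype.ext (one_smul Q (ω : Ω))
      mul_smul := fun q q' ω => Subtype.ext (mul_smul q q' (ω : Ω)) }
  let actG : MulAction G S := MulAction.compHom S (QuotientGroup.mk' F)
  have hactG : ∀ (g : G) (ω : S), g • ω = ((g : Q)) • ω := fun _ _ => rfl
  have hactGx : ∀ (g : G) (x : FreeGroup S), g • x = ((g : Q)) • x := fun _ _ => rfl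
  have hkill : ∀ (k : K) (x : FreeGroup Ω), killTo S (k • x) = (k : G) • killTo S x := by
    intro k x
    have h1 : (killTo S).comp (MulDistribMulAction.toMonoidHom (FreeGroup Ω) k) =
        (MulDistribMulAction.toMonoidHom (FreeGroup S) (k : G)).comp (killTo S) := by
      ext ω
      change killTo S (k • FreeGroup.of ω) = (k : G) • killTo S (FreeGroup.of ω)
      rw [smul_of, ← hactQ]
      by_cases h : ω ∈ S
      · rw [killTo_of_mem h, killTo_of_mem (hSinv _ _ h), smul_of]
        rfl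
      · have h2 : ((k : G) : Q) • ω ∉ S := fun h3 => h (by
          have := hSinv ((k : G) : Q)⁻¹ _ h3
          rwa [inv_smul_smul] at this)
        rw [killTo_of_not_mem h, killTo_of_not_mem h2, smul_one]
    exact DFunLike.congr_fun h1 x
  -- the crossed homomorphism on `K`
  let φ₀ : G → FreeGroup S := fun g => if h : g ∈ K then killTo S (φ ⟨g, h⟩) else 1
  have hφ₀ : CH K φ₀ := by
    intro x hx y hy
    have h1 : φ₀ (x * y) = killTo S (φ (⟨x, hx⟩ * ⟨y, hy⟩)) := by
      simp only [φ₀, dif_pos (K.mul_mem hx hy)]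
      rfl
    have h2 : φ₀ x = killTo S (φ ⟨x, hx⟩) := by simp only [φ₀, dif_pos hx]
    have h3 : φ₀ y = killTo S (φ ⟨y, hy⟩) := by simp only [φ₀, dif_pos hy]
    rw [h1, h2, h3, hφ _ trivial _ trivial, map_mul, hkill]
  obtain ⟨ψ, hψ, hψe⟩ := hchain G X S F b H hH Y hY hA φ₀ hφ₀
  rw [hFH] at hψ
  have hψ1 : ψ 1 = 1 := by
    have := hψ 1 trivial 1 trivial
    rw [one_mul, one_smul] at this
    exact mul_eq_left.1 this.symm
  -- the homomorphism to the semidirect product
  let Φ : G →* FreeGroup S ⋊[permAct Q S] Q :=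
    { toFun := fun g => ⟨ψ g, (g : Q)⟩
      map_one' := by
        rw [hψ1]
        rfl
      map_mul' := by
        intro x y
        apply SemidirectProduct.ext
        · change ψ (x * y) = ψ x * (permAct Q S (x : Q)) (ψ y)
          rw [hψ x trivial y trivial]
          rfl
        · rfl }
  have hΦinj : ∀ h ∈ H, Φ h = 1 → h = 1 := by
    intro h hh h1
    have h2 : (h : Q) = 1 := congrArg SemidirectProduct.right h1
    have h3 : ψ h = 1 := congrArg SemidirectProduct.left h1
    have h4 : h ∈ F := (QuotientGroup.eq_one_iff h).1 h2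
    have h5 : h ∈ K := hK ▸ Subgroup.mem_sup_right hh
    rw [hψe h h5] at h3
    simp only [φ₀, dif_pos h5] at h3
    have h6 := hSφ ⟨h, h5⟩ hh
    rw [h3, map_one] at h6
    have h7 := hinj ⟨h, h5⟩ h4 h6.symm
    exact congrArg Subtype.val h7
  have hfinS : Finite S := hSf
  have hfinQ : Finite Q := inferInstance
  obtain ⟨KW, hKW1, hKW2, ρ, hρ1, hρ2⟩ := hlrW S Q (H.map Φ) (fg_map hH Φ)
  -- back to `G`
  let ΦH : H →* FreeGroup S ⋊[permAct Q S] Q := Φ.comp H.subtype
  have hΦH : Function.Injective ΦH := by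
    rw [injective_iff_map_eq_one]
    intro h hh
    exact Subtype.ext (hΦinj h h.2 hh)
  have hrange : ∀ x, x ∈ H.map Φ → x ∈ ΦH.range := by
    rintro _ ⟨h, hh, rfl⟩
    exact ⟨⟨h, hh⟩, rfl⟩
  let E : H ≃* ΦH.range := MonoidHom.ofInjective hΦH
  let ρ' : KW.comap Φ →* ΦH.range :=
    { toFun := fun k => ⟨ρ ⟨Φ k, k.2⟩, hrange _ (hρ1 _)⟩
      map_one' := by
        apply Subtype.ext
        change ρ ⟨Φ ((1 : KW.comap Φ) : G), _⟩ = 1
        have : (⟨Φ ((1 : KW.comap Φ) : G), (1 : KW.comap Φ).2⟩ : KW) = 1 :=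
          Subtype.ext (map_one Φ)
        rw [this, map_one]
      map_mul' := by
        intro x y
        apply Subtype.ext
        change ρ ⟨Φ ((x * y : KW.comap Φ) : G), _⟩ = ρ ⟨Φ x, x.2⟩ * ρ ⟨Φ y, y.2⟩
        rw [← map_mul]
        congr 1
        exact Subtype.ext (map_mul Φ (x : G) (y : G)) }
  have hcfi : (KW.comap Φ).FiniteIndex := by
    have h1 : KW.relIndex ⊤ ≠ 0 := by
      rw [Subgroup.relIndex_top_right]
      exact hKW1.index_ne_zero
    have h2 := Subgroup.relIndex_comap_ne_zero Φ h1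
    rw [Subgroup.comap_top, Subgroup.relIndex_top_right] at h2
    exact ⟨h2⟩
  refine ⟨KW.comap Φ, hcfi, fun h hh => hKW2 ⟨h, hh, rfl⟩,
    H.subtype.comp (E.symm.toMonoidHom.comp ρ'), fun k => (E.symm (ρ' k)).2, ?_⟩
  intro h hk hh
  change ((E.symm (ρ' ⟨h, hk⟩) : H) : G) = h
  have h1 : ρ' ⟨h, hk⟩ = E ⟨h, hh⟩ := by
    apply Subtype.ext
    change ρ ⟨Φ h, hk⟩ = Φ h
    exact hρ2 ⟨Φ h, hk⟩ ⟨h, hh, rfl⟩
  rw [h1, MulEquiv.symm_apply_apply]

/-- virtually free groups have property (LR) -/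
theorem final (hchain : P_chain) (hbase : P_base) (hlrW : P_lrW) (hrrfg : P_rrfg)
    (G : Type) [Group G] (hG : ∃ F : Subgroup G, F.FiniteIndex ∧ IsFreeGroup F)
    (H : Subgroup G) (hH : H.FG) : VR H := by
  obtain ⟨F₀, hfi, hfr⟩ := hG
  -- a normal free subgroup
  let F := F₀.normalCore
  have hFn : F.Normal := inferInstance
  have hFfi : F.FiniteIndex := inferInstance
  -- pass to `F ⊔ H`
  let L := F ⊔ H
  let FL := F.subgroupOf L
  have hfree : IsFreeGroup FL := by
    let f : FL →* F₀ :=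
      { toFun := fun x => ⟨((x : L) : G), F₀.normalCore_le x.2⟩
        map_one' := rfl
        map_mul' := fun _ _ => rfl }
    refine isFree_of_inj f ?_
    intro x y hxy
    apply Subtype.ext
    apply Subtype.ext
    exact congrArg (fun z : F₀ => (z : G)) hxy
  have hHL : H ≤ L := le_sup_right
  have hFL : F ≤ L := le_sup_left
  have hHfg : (H.subgroupOf L).FG := by
    have h1 : Group.FG H := (Group.fg_iff_subgroup_fg H).2 hH
    have h2 : Group.FG (H.subgroupOf L) :=
      Group.fg_of_surjective (f := (Subgroup.subgroupOfEquivOfLe hHL).symm.toMonoidHom)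
        (Subgroup.subgroupOfEquivOfLe hHL).symm.surjective
    exact (Group.fg_iff_subgroup_fg _).1 h2
  have htop : FL ⊔ H.subgroupOf L = ⊤ := by
    rw [eq_top_iff]
    intro x _
    obtain ⟨k, hk, h, hh, hx⟩ := (mem_sup_of_normalised (K := F) (H := H)
      (fun g _ k hk => hFn.conj_mem k hk g)).1 x.2
    have : x = (⟨k, hFL hk⟩ : L) * ⟨h, hHL hh⟩ := Subtype.ext hx
    rw [this]
    exact Subgroup.mul_mem _ (Subgroup.mem_sup_left hk) (Subgroup.mem_sup_right hh)
  obtain ⟨K, hK1, hK2, ρ, hρ1, hρ2⟩ := main_case hchain hbase hlrW hrrfg L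
    (IsFreeGroup.Generators FL) FL (IsFreeGroup.toFreeGroup FL).symm (H.subgroupOf L) hHfg htop
  have hLfi : L.FiniteIndex := Subgroup.finiteIndex_of_le hFL
  have hmapfi : (K.map L.subtype).FiniteIndex := by
    constructor
    rw [Subgroup.index_map_subtype]
    exact mul_ne_zero hK1.index_ne_zero hLfi.index_ne_zero
  have hKL : K.map L.subtype ≤ L := by
    rintro _ ⟨x, -, rfl⟩
    exact x.2
  let j : K.map L.subtype →* K :=
    { toFun := fun x => ⟨⟨x, hKL x.2⟩, by
        obtain ⟨y, hy, hyx⟩ := x.2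
        have : y = (⟨(x : G), hKL x.2⟩ : L) := Subtype.ext hyx
        rw [← this]
        exact hy⟩
      map_one' := rfl
      map_mul' := fun _ _ => rfl }
  refine ⟨K.map L.subtype, hmapfi, fun h hh => ⟨⟨h, hHL hh⟩, hK2 hh, rfl⟩,
    L.subtype.comp (ρ.comp j), fun k => hρ1 (j k), ?_⟩
  intro h hk hh
  change ((ρ (j ⟨h, hk⟩) : L) : G) = h
  have h1 := hρ2 ⟨h, hHL hh⟩ (j ⟨h, hk⟩).2 hh
  have h2 : j ⟨h, hk⟩ = ⟨⟨h, hHL hh⟩, (j ⟨h, hk⟩).2⟩ := rfl
  rw [h2, h1]

end Pool.Agent.Y28.LR
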