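import Pool.Agent.Y28.LR.Chain

set_option autoImplicit false

/-!
# The cores are relatively finitely generated
-/

namespace Pool.Agent.Y28.LR

open Set Pointwise

/-- transport of cut families along isomorphisms -/
theorem CutFamily.map {A B : Type} [Group A] [Group B] (e : A ≃* B) {D : Subgroup A}
    {U : Set (Set A)} (hU : CutFamily D U) :
    CutFamily (D.map e.toMonoidHom) ((fun s => e.symm ⁻¹' s) '' U) := by
  have hsm : ∀ (g : B) (s : Set A), g • (e.symm ⁻¹' s) = e.symm ⁻¹' (e.symm g • s) := by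
    intro g s
    ext x
    rw [Set.mem_smul_set_iff_inv_smul_mem, mem_preimage, mem_preimage,
      Set.mem_smul_set_iff_inv_smul_mem]
    simp [smul_eq_mul]
  have hinj : ∀ s t : Set A, e.symm ⁻¹' s = e.symm ⁻¹' t → s = t := fun s t h =>
    (e.symm.surjective.preimage_injective) h
  refine ⟨?_, ?_, ?_, ?_, ?_, ?_, ?_⟩
  · rintro g _ ⟨s, hs, rfl⟩
    exact ⟨e.symm g • s, hU.smul_mem _ s hs, (hsm g s).symm⟩
  · rintro _ ⟨s, hs, rfl⟩
    exact ⟨sᶜ, hU.compl_mem s hs, rfl⟩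
  · rintro _ ⟨s, hs, rfl⟩ _ ⟨t, ht, rfl⟩
    rcases hU.nested s hs t ht with h | h | h | h
    · exact Or.inl (preimage_mono h)
    · exact Or.inr (Or.inl (preimage_mono h))
    · exact Or.inr (Or.inr (Or.inl (Disjoint.preimage _ h)))
    · refine Or.inr (Or.inr (Or.inr ?_))
      change e.symm ⁻¹' s ∪ e.symm ⁻¹' t = univ
      rw [← preimage_union, h, preimage_univ]
  · rintro _ ⟨s, hs, rfl⟩ g d hd
    obtain ⟨d', hd', rfl⟩ := Subgroup.mem_map.1 hd
    change e.symm (g * e d') ∈ s ↔ e.symm g ∈ s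
    rw [map_mul, MulEquiv.symm_apply_apply]
    exact hU.right_inv s hs _ _ hd'
  · rintro _ ⟨s, hs, rfl⟩ g hg
    change g • (e.symm ⁻¹' s) = e.symm ⁻¹' s at hg
    rw [hsm] at hg
    have h1 := hU.free s hs _ (hinj _ _ hg)
    exact (map_eq_one_iff e.symm e.symm.injective).1 h1
  · intro p q
    refine ((hU.finite (e.symm p) (e.symm q)).image (fun s => e.symm ⁻¹' s)).subset ?_
    rintro _ ⟨⟨s, hs, rfl⟩, h1, h2⟩
    exact ⟨s, ⟨hs, h1, h2⟩, rfl⟩
  · intro p q hpq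
    have h1 : (e.symm p)⁻¹ * e.symm q ∉ D := by
      intro h
      apply hpq
      refine Subgroup.mem_map.2 ⟨_, h, ?_⟩
      change e ((e.symm p)⁻¹ * e.symm q) = p⁻¹ * q
      rw [map_mul, map_inv, MulEquiv.apply_symm_apply, MulEquiv.apply_symm_apply]
    obtain ⟨s, hs, h2, h3⟩ := hU.sep _ _ h1
    exact ⟨_, ⟨s, hs, rfl⟩, h2, h3⟩

section

variable {G X : Type} [Group G] {F : Subgroup G} (b : FreeGroup X ≃* F)

theorem FY_eq (Y : Set X) : FY b Y =
    ((Subgroup.closure (FreeGroup.of '' Y)).map b.toMonoidHom).map F.subtype := by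
  rw [MonoidHom.map_closure, MonoidHom.map_closure, ← image_comp, ← image_comp]
  rfl

theorem mem_FY_iff (Y : Set X) (x : F) :
    (x : G) ∈ FY b Y ↔ b.symm x ∈ Subgroup.closure (FreeGroup.of '' Y) := by
  rw [FY_eq, Subgroup.mem_map]
  constructor
  · rintro ⟨y, hy, hyx⟩
    have : y = x := Subtype.ext hyx
    subst this
    obtain ⟨z, hz, hzy⟩ := Subgroup.mem_map.1 hy
    have h1 : b z = y := hzy
    rw [← h1, MulEquiv.symm_apply_apply]
    exact hz
  · intro h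
    refine ⟨x, Subgroup.mem_map.2 ⟨_, h, ?_⟩, rfl⟩
    exact b.apply_symm_apply x

/-- free groups are torsion-free -/
theorem free_tf (a : FreeGroup X) (n : ℕ) (hn : 1 ≤ n) (h : a ^ n = 1) : a = 1 := by
  by_contra hne
  have h1 : ¬ IsOfFinOrder a := by
    have : IsMulTorsionFree (FreeGroup X) := inferInstance
    exact not_isOfFinOrder_of_isMulTorsionFree hne
  exact h1 (isOfFinOrder_iff_pow_eq_one.2 ⟨n, hn, h⟩)

theorem F_tf (b : FreeGroup X ≃* F) (a : F) (n : ℕ) (hn : 1 ≤ n) (h : a ^ n = 1) : a = 1 := by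
  have h1 : b.symm a = 1 := free_tf (b.symm a) n hn (by rw [← map_pow, h, map_one])
  exact (map_eq_one_iff b.symm b.symm.injective).1 h1

variable [F.Normal]

/-- one intersection -/
theorem retract_one (hcuts : P_cuts) (hret : P_retract) (Y : Set X) (P : Subgroup G) (hP : P ≤ F)
    (t : G) : ∃ ρ : P →* G, (∀ p, ρ p ∈ P ∧ t⁻¹ * ρ p * t ∈ FY b Y) ∧
      ∀ p : P, t⁻¹ * (p : G) * t ∈ FY b Y → ρ p = p := by
  obtain ⟨U, hU⟩ := hcuts X Y
  let e : FreeGroup X ≃* F := b.trans (MulAut.conjNormal t)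
  have hU' := hU.map e
  have hD : ∀ x : F, x ∈ (Subgroup.closure (FreeGroup.of '' Y)).map e.toMonoidHom ↔
      t⁻¹ * (x : G) * t ∈ FY b Y := by
    intro x
    have h1 : t⁻¹ * (x : G) * t = (((MulAut.conjNormal t)⁻¹ x : F) : G) := by
      rw [← map_inv, MulAut.conjNormal_apply, inv_inv]
    rw [h1, mem_FY_iff, Subgroup.mem_map]
    constructor
    · rintro ⟨y, hy, rfl⟩
      have : b.symm ((MulAut.conjNormal t)⁻¹ (e y)) = y := by
        change b.symm ((MulAut.conjNormal t)⁻¹ ((MulAut.conjNormal t) (b y))) = y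
        rw [MulAut.inv_apply_self, MulEquiv.symm_apply_apply]
      change b.symm ((MulAut.conjNormal t)⁻¹ (e y)) ∈ _
      rwa [this]
    · intro h
      refine ⟨_, h, ?_⟩
      change (MulAut.conjNormal t) (b (b.symm ((MulAut.conjNormal t)⁻¹ x))) = x
      rw [MulEquiv.apply_symm_apply, MulAut.apply_inv_self]
  obtain ⟨ρ, h1, h2⟩ := hret F (F_tf b) _ _ hU' (P.subgroupOf F)
  let j : P →* P.subgroupOf F :=
    { toFun := fun p => ⟨⟨p, hP p.2⟩, p.2⟩
      map_one' := rfl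
      map_mul' := fun _ _ => rfl }
  refine ⟨F.subtype.comp (ρ.comp j), fun p => ⟨(h1 (j p)).1, ?_⟩, fun p hp => ?_⟩
  · exact (hD _).1 (h1 (j p)).2
  · have h3 := h2 (j p) ((hD _).2 hp)
    change ((ρ (j p) : F) : G) = p
    rw [h3]
    rfl

/-- finite intersections -/
theorem retract_list (hcuts : P_cuts) (hret : P_retract) (Y : Set X) (l : List G) :
    ∀ (P : Subgroup G), P ≤ F → ∃ ρ : P →* G,
      (∀ p, ρ p ∈ P ∧ ∀ t ∈ l, t⁻¹ * ρ p * t ∈ FY b Y) ∧
      ∀ p : P, (∀ t ∈ l, t⁻¹ * (p : G) * t ∈ FY b Y) → ρ p = p := by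
  induction l with
  | nil =>
    intro P _
    exact ⟨P.subtype, fun p => ⟨p.2, fun t ht => absurd ht (by simp)⟩, fun p _ => rfl⟩
  | cons t l ih =>
    intro P hP
    obtain ⟨ρ₁, h1, h2⟩ := retract_one b hcuts hret Y P hP t
    let P' : Subgroup G := P ⊓ (FY b Y).map (MulAut.conj t).toMonoidHom
    have hP' : ∀ x, x ∈ P' ↔ x ∈ P ∧ t⁻¹ * x * t ∈ FY b Y := by
      intro x
      refine and_congr Iff.rfl ?_
      constructor
      · rintro ⟨y, hy, rfl⟩
        change t⁻¹ * (t * y * t⁻¹) * t ∈ FY b Y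
        have : t⁻¹ * (t * y * t⁻¹) * t = y := by group
        rwa [this]
      · intro h
        refine ⟨_, h, ?_⟩
        change t * (t⁻¹ * x * t) * t⁻¹ = x
        group
    obtain ⟨ρ₂, h3, h4⟩ := ih P' (inf_le_left.trans hP)
    let j : P →* P' := ρ₁.codRestrict P' (fun p => (hP' _).2 (h1 p))
    refine ⟨ρ₂.comp j, fun p => ?_, fun p hp => ?_⟩
    · obtain ⟨h5, h6⟩ := h3 (j p)
      obtain ⟨h7, h8⟩ := (hP' _).1 h5
      refine ⟨h7, fun s hs => ?_⟩
      rcases List.mem_cons.1 hs with rfl | hs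
      · exact h8
      · exact h6 s hs
    · have h5 : ρ₁ p = p := h2 p (hp t (by simp))
      have h6 : ((j p : P') : G) = p := h5
      have h7 := h4 (j p) (fun s hs => by
        rw [h6]
        exact hp s (List.mem_cons_of_mem _ hs))
      change ρ₂ (j p) = p
      rw [h7, h6]

theorem rrfg (hcuts : P_cuts) (hret : P_retract) : P_rrfg := by
  intro G X _ F _ _ b H Y Y₁ hY hfin hN hA
  classical
  -- representatives
  have h1 : ∀ q : G ⧸ F, ∃ t : G, t ∈ H ∧ ((∃ h ∈ H, (h : G ⧸ F) = q) → (t : G ⧸ F) = q) := by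
    intro q
    by_cases h : ∃ h ∈ H, (h : G ⧸ F) = q
    · obtain ⟨t, ht, htq⟩ := h
      exact ⟨t, ht, fun _ => htq⟩
    · exact ⟨1, H.one_mem, fun h' => absurd h' h⟩
  choose t ht1 ht2 using h1
  have : Fintype (G ⧸ F) := Fintype.ofFinite _
  let l : List G := (Finset.univ : Finset (G ⧸ F)).toList.map t
  have hl : ∀ s, s ∈ l ↔ ∃ q, t q = s := by
    intro s
    simp [l]
  have hRR : ∀ x, x ∈ RR b H Y₁ ↔ x ∈ FY b Y₁ ∧ ∀ s ∈ l, s⁻¹ * x * s ∈ FY b Y₁ := by
    intro x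
    constructor
    · intro hx
      refine ⟨RR_le b H Y₁ hx, fun s hs => ?_⟩
      obtain ⟨q, rfl⟩ := (hl s).1 hs
      exact (mem_RR b).1 hx _ (ht1 q)
    · rintro ⟨-, hx⟩
      rw [mem_RR]
      intro h hh
      set u := t (h : G ⧸ F) with hu
      have h4 : (u : G ⧸ F) = (h : G ⧸ F) := ht2 _ ⟨h, hh, rfl⟩
      have h3 : u ∈ H := ht1 _
      have h5 := hx u ((hl u).2 ⟨_, rfl⟩)
      have h6 : u⁻¹ * h ∈ F := QuotientGroup.eq.1 h4
      have h7 : u⁻¹ * h ∈ FY b Y₁ := hA ⟨h6, H.mul_mem (H.inv_mem h3) hh⟩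
      have h8 : h⁻¹ * x * h = (u⁻¹ * h)⁻¹ * (u⁻¹ * x * u) * (u⁻¹ * h) := by group
      rw [h8]
      exact Subgroup.mul_mem _ (Subgroup.mul_mem _ (Subgroup.inv_mem _ h7) h5) h7
  obtain ⟨ρ, h2, h3⟩ := retract_list b hcuts hret Y₁ l (FY b Y₁) (FY_le b Y₁)
  have hρR : ∀ p, ρ p ∈ RR b H Y₁ := fun p => (hRR _).2 (h2 p)
  have hρid : ∀ p : FY b Y₁, (p : G) ∈ RR b H Y₁ → ρ p = p := fun p hp => h3 p ((hRR _).1 hp).2
  have hYR : FY b Y ≤ RR b H Y₁ := by
    have := RR_mono b (H := H) hY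
    rwa [RR_eq b hN] at this
  have hmem : ∀ x ∈ Y₁, ((b (FreeGroup.of x) : F) : G) ∈ FY b Y₁ := fun x hx => mem_FY_of b hx
  let S₀ : Finset X := hfin.toFinset
  let S : Finset G := S₀.attach.image (fun x => ρ ⟨_, hmem x.1 (by
    have := x.2
    rw [Set.Finite.mem_toFinset] at this
    exact this.1)⟩)
  refine ⟨S, le_antisymm ?_ ?_⟩
  · intro r hr
    have key : ∀ (p : G) (hp : p ∈ FY b Y₁), ρ ⟨p, hp⟩ ∈ FY b Y ⊔ Subgroup.closure (S : Set G) := by
      intro p hp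
      unfold FY at hp
      induction hp using Subgroup.closure_induction with
      | mem x hx =>
        obtain ⟨y, hy, rfl⟩ := hx
        by_cases hyY : y ∈ Y
        · have h5 : ((b (FreeGroup.of y) : F) : G) ∈ FY b Y := mem_FY_of b hyY
          have h6 := hρid ⟨_, hmem y hy⟩ (hYR h5)
          have h7 : ρ ⟨((b (FreeGroup.of y) : F) : G), hmem y hy⟩ ∈ FY b Y := by
            rw [h6]
            exact h5
          exact Subgroup.mem_sup_left h7
        · refine Subgroup.mem_sup_right (Subgroup.subset_closure ?_)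
          have h5 : y ∈ S₀ := hfin.mem_toFinset.2 ⟨hy, hyY⟩
          exact Finset.mem_coe.2 (Finset.mem_image.2 ⟨⟨y, h5⟩, Finset.mem_attach _ _, rfl⟩)
      | one =>
        have : (⟨1, Subgroup.one_mem _⟩ : FY b Y₁) = 1 := rfl
        change ρ ⟨1, Subgroup.one_mem _⟩ ∈ _
        rw [this, map_one]
        exact Subgroup.one_mem _
      | mul x y hx hy h5 h6 =>
        have : (⟨x * y, (FY b Y₁).mul_mem hx hy⟩ : FY b Y₁) = ⟨x, hx⟩ * ⟨y, hy⟩ := rfl
        change ρ ⟨x * y, (FY b Y₁).mul_mem hx hy⟩ ∈ _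
        rw [this, map_mul]
        exact Subgroup.mul_mem _ h5 h6
      | inv x hx h5 =>
        have : (⟨x⁻¹, (FY b Y₁).inv_mem hx⟩ : FY b Y₁) = ⟨x, hx⟩⁻¹ := rfl
        change ρ ⟨x⁻¹, (FY b Y₁).inv_mem hx⟩ ∈ _
        rw [this, map_inv]
        exact Subgroup.inv_mem _ h5
    have h5 := key r (RR_le b H Y₁ hr)
    rwa [hρid ⟨r, RR_le b H Y₁ hr⟩ hr] at h5
  · refine sup_le hYR ((Subgroup.closure_le _).2 ?_)
    intro s hs
    obtain ⟨x, -, rfl⟩ := Finset.mem_image.1 (Finset.mem_coe.1 hs)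
    exact hρR _

end

end Pool.Agent.Y28.LR
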