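import Pool.Agent.Y28.LR.Stm

set_option autoImplicit false

/-!
# The intersection with a vertex group is a retract
-/

namespace Pool.Agent.Y28.LR

open Set Pointwise

section hat

variable {A : Type} [Group A] {D : Subgroup A} {U : Set (Set A)} (P : Subgroup A)

/-- the set of cosets in `P ⧸ (P ∩ D)` determined by `s` -/
def hat (D : Subgroup A) (s : Set A) : Set (P ⧸ D.subgroupOf P) :=
  (fun a : P => (a : P ⧸ D.subgroupOf P)) '' {a : P | (a : A) ∈ s}

variable {P}

theorem mem_hat (hU : CutFamily D U) {s : Set A} (hs : s ∈ U) (a : P) :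
    (a : P ⧸ D.subgroupOf P) ∈ hat P D s ↔ (a : A) ∈ s := by
  constructor
  · rintro ⟨b, hb, hba⟩
    have h1 : b⁻¹ * a ∈ D.subgroupOf P := QuotientGroup.eq.1 hba
    have h2 := (hU.right_inv s hs b _ h1).2 hb
    simpa using h2
  · intro h
    exact ⟨a, h, rfl⟩

theorem smul_hat (hU : CutFamily D U) {s : Set A} (hs : s ∈ U) (g : P) :
    g • hat P D s = hat P D ((g : A) • s) := by
  ext x
  obtain ⟨a, rfl⟩ := QuotientGroup.mk_surjective x
  rw [mem_hat hU (hU.smul_mem _ s hs), Set.mem_smul_set_iff_inv_smul_mem,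
    Set.mem_smul_set_iff_inv_smul_mem]
  exact mem_hat hU hs (g⁻¹ * a)

theorem compl_hat (hU : CutFamily D U) {s : Set A} (hs : s ∈ U) :
    (hat P D s)ᶜ = hat P D sᶜ := by
  ext x
  obtain ⟨a, rfl⟩ := QuotientGroup.mk_surjective x
  rw [mem_hat hU (hU.compl_mem s hs), mem_compl_iff, mem_compl_iff]
  exact not_congr (mem_hat hU hs a)

theorem nested_hat (hU : CutFamily D U) {s t : Set A} (hs : s ∈ U) (ht : t ∈ U) :
    Nested (hat P D s) (hat P D t) := by
  have hsub : ∀ {s t : Set A}, s ∈ U → t ∈ U → s ⊆ t → hat P D s ⊆ hat P D t := by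
    intro s t hs ht h x hx
    obtain ⟨a, rfl⟩ := QuotientGroup.mk_surjective x
    exact (mem_hat hU ht a).2 (h ((mem_hat hU hs a).1 hx))
  rcases hU.nested s hs t ht with h | h | h | h
  · exact Or.inl (hsub hs ht h)
  · exact Or.inr (Or.inl (hsub ht hs h))
  · refine Or.inr (Or.inr (Or.inl ?_))
    rw [Set.disjoint_left]
    intro x hx hx'
    obtain ⟨a, rfl⟩ := QuotientGroup.mk_surjective x
    exact Set.disjoint_left.1 h ((mem_hat hU hs a).1 hx) ((mem_hat hU ht a).1 hx')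
  · refine Or.inr (Or.inr (Or.inr ?_))
    rw [eq_univ_iff_forall]
    intro x
    obtain ⟨a, rfl⟩ := QuotientGroup.mk_surjective x
    have h1 : (a : A) ∈ s ∪ t := by rw [h]; trivial
    rcases h1 with h1 | h1
    · exact Or.inl ((mem_hat hU hs a).2 h1)
    · exact Or.inr ((mem_hat hU ht a).2 h1)

/-- torsion-freeness argument -/
theorem pow_smul_ne {B : Type} [Group B] (htf : ∀ a : B, ∀ n : ℕ, 1 ≤ n → a ^ n = 1 → a = 1)
    {S : Set (Set B)} (hS : S.Finite) (hfree : ∀ s ∈ S, ∀ g : B, g • s = s → g = 1) {s : Set B}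
    {g : B} (h : ∀ k : ℕ, g ^ k • s ∈ S) : g = 1 := by
  have h1 : ¬ Function.Injective (fun k : ℕ => g ^ k • s) := by
    intro hinj
    exact Set.infinite_of_injective_forall_mem hinj h hS
  have h2 : ∃ i j : ℕ, i < j ∧ g ^ i • s = g ^ j • s := by
    unfold Function.Injective at h1
    push Not at h1
    obtain ⟨i, j, hij, hne⟩ := h1
    rcases lt_or_gt_of_ne hne with h | h
    · exact ⟨i, j, h, hij⟩
    · exact ⟨j, i, h, hij.symm⟩
  obtain ⟨i, j, hij, h3⟩ := h2
  have h4 : g ^ (j - i) • s = s := by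
    have h5 : g ^ j = g ^ i * g ^ (j - i) := by
      rw [← pow_add]
      congr 1
      omega
    rw [h5, mul_smul] at h3
    exact (smul_left_cancel _ h3).symm
  have h6 : s ∈ S := by simpa using h 0
  exact htf g (j - i) (by omega) (hfree s h6 _ h4)

theorem retract (hext : P_extend) : P_retract := by
  intro A _ htf D U hU P
  classical
  let V := P ⧸ D.subgroupOf P
  let E : Set (Set V) := {t | ∃ s ∈ U, t = hat P D s ∧ t.Nonempty ∧ tᶜ.Nonempty}
  have hE : TreeSet P E := by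
    refine ⟨?_, ?_, ?_, ?_, ?_⟩
    · rintro g _ ⟨s, hs, rfl, h1, h2⟩
      refine ⟨(g : A) • s, hU.smul_mem _ s hs, smul_hat hU hs g, ?_, ?_⟩
      · exact h1.smul_set
      · rw [← Set.smul_set_compl]
        exact h2.smul_set
    · rintro _ ⟨s, hs, rfl, h1, h2⟩
      exact ⟨sᶜ, hU.compl_mem s hs, compl_hat hU hs, h2, by rwa [compl_compl]⟩
    · rintro _ ⟨s, hs, rfl, h1, h2⟩
      exact ⟨h1, h2⟩
    · rintro _ ⟨s, hs, rfl, -, -⟩ _ ⟨t, ht, rfl, -, -⟩
      exact nested_hat hU hs ht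
    · intro p q
      obtain ⟨a, rfl⟩ := QuotientGroup.mk_surjective p
      obtain ⟨c, rfl⟩ := QuotientGroup.mk_surjective q
      refine ((hU.finite (a : A) c).image (hat P D)).subset ?_
      rintro _ ⟨⟨s, hs, rfl, -, -⟩, h3, h4⟩
      exact ⟨s, ⟨hs, fun h => h3 ((mem_hat hU hs a).2 h), (mem_hat hU hs c).1 h4⟩, rfl⟩
  have hsep : ∀ p q : V, p ≠ q → ∃ s ∈ E, p ∉ s ∧ q ∈ s := by
    intro p q hpq
    obtain ⟨a, rfl⟩ := QuotientGroup.mk_surjective p
    obtain ⟨c, rfl⟩ := QuotientGroup.mk_surjective q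
    have h1 : (a : A)⁻¹ * c ∉ D := fun h => hpq (QuotientGroup.eq.2 h)
    obtain ⟨s, hs, h2, h3⟩ := hU.sep _ _ h1
    have h4 : (a : V) ∉ hat P D s := fun h => h2 ((mem_hat hU hs a).1 h)
    have h5 : (c : V) ∈ hat P D s := (mem_hat hU hs c).2 h3
    exact ⟨hat P D s, ⟨s, hs, rfl, ⟨_, h5⟩, ⟨_, h4⟩⟩, h4, h5⟩
  have hstab : ∀ t ∈ E, ∀ g : P, g • t = t → g = 1 := by
    rintro _ ⟨s, hs, rfl, ⟨q, hq⟩, ⟨p, hp⟩⟩ g hg
    obtain ⟨a, rfl⟩ := QuotientGroup.mk_surjective p
    obtain ⟨c, rfl⟩ := QuotientGroup.mk_surjective q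
    have h1 : ∀ k : ℕ, g ^ k • hat P D s = hat P D s := by
      intro k
      induction k with
      | zero => simp
      | succ k ih => rw [pow_succ, mul_smul, hg, ih]
    have h2 : (g : A) = 1 := by
      refine pow_smul_ne htf (S := {s ∈ U | (a : A) ∉ s ∧ (c : A) ∈ s}) (hU.finite _ _)
        (fun s hs => hU.free s hs.1) (s := s) ?_
      intro k
      have hk : (g : A) ^ k • s ∈ U := hU.smul_mem _ s hs
      have h3 : hat P D ((g : A) ^ k • s) = hat P D s := by
        rw [← h1 k, smul_hat hU hs]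
        rfl
      refine ⟨hk, fun h => hp ?_, ?_⟩
      · rw [← h3]
        exact (mem_hat hU hk a).2 h
      · rw [← h3] at hq
        exact (mem_hat hU hk c).1 hq
    exact Subtype.ext h2
  let act : MulDistribMulAction P (D.subgroupOf P) :=
    { smul := fun _ x => x
      one_smul := fun _ => rfl
      mul_smul := fun _ _ _ => rfl
      smul_mul := fun _ _ _ => rfl
      smul_one := fun _ => rfl }
  let φ₀ : P → D.subgroupOf P := fun g => if h : g ∈ D.subgroupOf P then ⟨g, h⟩ else 1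
  have hφ₀ : ∀ (g : P) (h : g ∈ D.subgroupOf P), φ₀ g = ⟨g, h⟩ := by
    intro g h
    simp only [φ₀, dif_pos h]
  have hst : MulAction.stabilizer P ((1 : P) : V) = D.subgroupOf P :=
    MulAction.stabilizer_quotient _
  obtain ⟨φ, h1, h2⟩ := hext P V (D.subgroupOf P) E hE hsep ((1 : P) : V) φ₀
    (by
      rw [hst]
      intro a ha c hc
      rw [hφ₀ _ (Subgroup.mul_mem _ ha hc), hφ₀ a ha, hφ₀ c hc]
      rfl)
    (by
      intro s hs
      refine ⟨1, fun c _ hcs => ?_⟩
      rw [hstab s hs c hcs, hφ₀ 1 (Subgroup.one_mem _), smul_one, inv_one, mul_one]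
      rfl)
  rw [hst] at h2
  let φ' : P →* D.subgroupOf P :=
    { toFun := φ
      map_one' := by
        have := h1 1 trivial 1 trivial
        rw [one_mul] at this
        exact mul_eq_left.1 this.symm
      map_mul' := fun x y => h1 x trivial y trivial }
  refine ⟨P.subtype.comp ((D.subgroupOf P).subtype.comp φ'), ?_, ?_⟩
  · intro p
    exact ⟨(φ p : P).2, (φ p).2⟩
  · intro p hp
    change (((φ p : D.subgroupOf P) : P) : A) = p
    rw [h2 p hp, hφ₀ p hp]

end hat

end Pool.Agent.Y28.LR
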