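import Pool.Agent.Y28.LR.RRfg
import Pool.Agent.Y28.LR.Retract

set_option autoImplicit false

/-!
# One step of the extension in the ambient group
-/

namespace Pool.Agent.Y28.LR

open Set Pointwise

section

variable {G X : Type} [Group G] {F : Subgroup G} (b : FreeGroup X ≃* F) {H : Subgroup G}

theorem inf_le_RR [F.Normal] {Y : Set X} (hA : F ⊓ H ≤ FY b Y) : F ⊓ H ≤ RR b H Y := by
  intro a ha
  rw [mem_RR]
  intro h hh
  refine hA ⟨?_, H.mul_mem (H.mul_mem (H.inv_mem hh) ha.2) hh⟩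
  have := ‹F.Normal›.conj_mem a ha.1 h⁻¹
  rwa [inv_inv] at this

theorem RR_le_F (H : Subgroup G) (Y : Set X) : RR b H Y ≤ F := (RR_le b H Y).trans (FY_le b Y)

theorem mem_RR_of_mem [F.Normal] {Y : Set X} (hA : F ⊓ H ≤ FY b Y) {x : G} (hxF : x ∈ F)
    (hx : x ∈ RR b H Y ⊔ H) : x ∈ RR b H Y := by
  obtain ⟨k, hk, g, hg, rfl⟩ :=
    (mem_sup_of_normalised (K := RR b H Y) (H := H) (fun g hg k hk => RR_conj b hg hk)).1 hx
  refine Subgroup.mul_mem _ hk (inf_le_RR b hA ⟨?_, hg⟩)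
  have := F.mul_mem (F.inv_mem (RR_le_F b H Y hk)) hxF
  rwa [inv_mul_cancel_left] at this

/-- the isomorphism followed by a conjugation -/
def eh [F.Normal] (h : G) : FreeGroup X ≃* F := b.trans (MulAut.conjNormal h)

theorem eh_symm [F.Normal] (h : G) (x : F) :
    (eh b h).symm x = b.symm ((MulAut.conjNormal h)⁻¹ x) := rfl

theorem coe_conjNormal_inv [F.Normal] (h : G) (x : F) :
    (((MulAut.conjNormal h)⁻¹ x : F) : G) = h⁻¹ * (x : G) * h := by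
  rw [← map_inv, MulAut.conjNormal_apply, inv_inv]

theorem mem_map_eh [F.Normal] (Y : Set X) (h : G) (x : F) :
    x ∈ (Subgroup.closure (FreeGroup.of '' Y)).map (eh b h).toMonoidHom ↔
      h⁻¹ * (x : G) * h ∈ FY b Y := by
  rw [← coe_conjNormal_inv, mem_FY_iff, Subgroup.mem_map]
  constructor
  · rintro ⟨y, hy, rfl⟩
    have : b.symm ((MulAut.conjNormal h)⁻¹ (eh b h y)) = y := by
      rw [← eh_symm, MulEquiv.symm_apply_apply]
    change b.symm ((MulAut.conjNormal h)⁻¹ (eh b h y)) ∈ _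
    rwa [this]
  · intro hx
    refine ⟨_, hx, ?_⟩
    change eh b h (b.symm ((MulAut.conjNormal h)⁻¹ x)) = x
    rw [← eh_symm, MulEquiv.apply_symm_apply]

end

section

variable {G : Type} [Group G] {F : Subgroup G} {L : Subgroup G} (K : Subgroup L)

/-- the set of cosets determined by a subset of `F` -/
def hatL (F L : Subgroup G) (K : Subgroup L) (s : Set F) : Set (L ⧸ K) :=
  {x | ∃ (r : L) (h : (r : G) ∈ F), (r : L ⧸ K) = x ∧ (⟨r, h⟩ : F) ∈ s}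

variable {K}

theorem mem_hatL {D : Subgroup F} {U : Set (Set F)} (hU : CutFamily D U)
    (hD : ∀ (k : L), k ∈ K → ∀ h : (k : G) ∈ F, (⟨k, h⟩ : F) ∈ D) {s : Set F} (hs : s ∈ U)
    (r : L) (h : (r : G) ∈ F) : (r : L ⧸ K) ∈ hatL F L K s ↔ (⟨r, h⟩ : F) ∈ s := by
  constructor
  · rintro ⟨r', h', hr, hs'⟩
    have h1 : r'⁻¹ * r ∈ K := QuotientGroup.eq.1 hr
    have h2 : ((r'⁻¹ * r : L) : G) ∈ F := F.mul_mem (F.inv_mem h') h
    have h3 := (hU.right_inv s hs _ _ (hD _ h1 h2)).2 hs'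
    have h4 : (⟨r', h'⟩ : F) * ⟨((r'⁻¹ * r : L) : G), h2⟩ = ⟨r, h⟩ := by
      apply Subtype.ext
      change (r' : G) * ((r' : G)⁻¹ * r) = r
      rw [mul_inv_cancel_left]
    rwa [h4] at h3
  · intro hs'
    exact ⟨r, h, rfl, hs'⟩

end

theorem stepRR (hcuts : P_cuts) (hstep : P_step) (hrr : P_rrfg) : P_stepRR := by
  intro G X Ω _ _ F _ _ b H Y Y₁ Y₂ h01 h12 hfin hN hA φ₀ hφ₀
  classical
  have hA2 : F ⊓ H ≤ FY b Y₂ := hA.trans (FY_mono b h12)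
  obtain ⟨U, hU⟩ := hcuts X Y₁
  set R₁ := RR b H Y₁ with hR₁
  set R₂ := RR b H Y₂ with hR₂
  have hR12 : R₁ ≤ R₂ := RR_mono b h12
  set L := R₂ ⊔ H with hL
  have hR₂L : R₂ ≤ L := le_sup_left
  have hHL : H ≤ L := le_sup_right
  have hKL : R₁ ⊔ H ≤ L := sup_le_sup_right hR12 H
  set FL := F.subgroupOf L with hFL
  set KL := (R₁ ⊔ H).subgroupOf L with hKLdef
  have hFLR : ∀ f : L, f ∈ FL → (f : G) ∈ R₂ := fun f hf => mem_RR_of_mem b hA2 hf f.2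
  have hdec : ∀ x : L, ∃ r : L, (r : G) ∈ F ∧ (r : L ⧸ KL) = x := by
    intro x
    obtain ⟨k, hk, h, hh, hx⟩ := (mem_sup_of_normalised (K := R₂) (H := H)
      (fun g hg k hk => RR_conj b hg hk)).1 x.2
    refine ⟨⟨k, hR₂L hk⟩, RR_le_F b H Y₂ hk, ?_⟩
    rw [QuotientGroup.eq]
    change k⁻¹ * (x : G) ∈ R₁ ⊔ H
    rw [hx, inv_mul_cancel_left]
    exact Subgroup.mem_sup_right hh
  -- the families
  let Uh : G → Set (Set F) := fun h => (fun s => (eh b h).symm ⁻¹' s) '' U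
  have hUh : ∀ h, CutFamily ((Subgroup.closure (FreeGroup.of '' Y₁)).map (eh b h).toMonoidHom)
      (Uh h) := fun h => hU.map (eh b h)
  have hD : ∀ h ∈ H, ∀ (k : L), k ∈ KL → ∀ hk : (k : G) ∈ F,
      (⟨k, hk⟩ : F) ∈ (Subgroup.closure (FreeGroup.of '' Y₁)).map (eh b h).toMonoidHom := by
    intro h hh k hkK hkF
    rw [mem_map_eh]
    have h1 : (k : G) ∈ R₁ := mem_RR_of_mem b hA hkF hkK
    exact (mem_RR b).1 h1 h hh
  have hmem : ∀ {h : G} (hh : h ∈ H) {s : Set F} (hs : s ∈ Uh h) (r : L) (hr : (r : G) ∈ F),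
      (r : L ⧸ KL) ∈ hatL F L KL s ↔ (⟨r, hr⟩ : F) ∈ s := by
    intro h hh s hs r hr
    exact mem_hatL (hUh h) (hD h hh) hs r hr
  have hsmul : ∀ {h : G} (hh : h ∈ H) {s : Set F} (hs : s ∈ Uh h) (f : L) (hf : (f : G) ∈ F),
      f • hatL F L KL s = hatL F L KL ((⟨f, hf⟩ : F) • s) := by
    intro h hh s hs f hf
    ext x
    obtain ⟨y, rfl⟩ := QuotientGroup.mk_surjective x
    obtain ⟨r, hr, hry⟩ := hdec y
    rw [← hry, hmem hh ((hUh h).smul_mem _ s hs) r hr, Set.mem_smul_set_iff_inv_smul_mem,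
      Set.mem_smul_set_iff_inv_smul_mem]
    have h1 : ((f⁻¹ * r : L) : G) ∈ F := F.mul_mem (F.inv_mem hf) hr
    have h2 := hmem hh hs (f⁻¹ * r) h1
    have h3 : (⟨((f⁻¹ * r : L) : G), h1⟩ : F) = (⟨f, hf⟩ : F)⁻¹ • (⟨r, hr⟩ : F) := rfl
    rw [h3] at h2
    exact h2
  let 𝒰 : Set (Set (L ⧸ KL)) := {t | ∃ h ∈ H, ∃ s ∈ Uh h, t = hatL F L KL s ∧
    t.Nonempty ∧ tᶜ.Nonempty}
  -- the hypotheses of the step
  have hsup : FL ⊔ KL = ⊤ := by
    rw [eq_top_iff]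
    intro x _
    obtain ⟨r, hr, hrx⟩ := hdec x
    have h1 : r⁻¹ * x ∈ KL := QuotientGroup.eq.1 hrx
    have h2 : x = r * (r⁻¹ * x) := by group
    rw [h2]
    exact Subgroup.mul_mem _ (Subgroup.mem_sup_left hr) (Subgroup.mem_sup_right h1)
  have htf : ∀ f ∈ FL, ∀ n : ℕ, 1 ≤ n → f ^ n = 1 → f = 1 := by
    intro f hf n hn h
    have h0 : (f : G) ^ n = 1 := congrArg (fun z : L => (z : G)) h
    have h1 : (⟨(f : G), hf⟩ : F) = 1 := F_tf b _ n hn (Subtype.ext h0)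
    have h2 : (f : G) = 1 := congrArg (fun z : F => (z : G)) h1
    exact Subtype.ext h2
  have hfg : ∃ S : Finset L, Subgroup.closure ((S : Set L) ∪ KL) = ⊤ := by
    obtain ⟨S, hS⟩ := hrr G X F b H Y Y₂ (h01.trans h12) hfin hN hA2
    have hSL : ∀ s ∈ S, s ∈ L := by
      intro s hs
      refine hR₂L ?_
      rw [hR₂, hS]
      exact Subgroup.mem_sup_right (Subgroup.subset_closure hs)
    refine ⟨S.attach.image (fun s => ⟨s.1, hSL s.1 s.2⟩), ?_⟩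
    set M := Subgroup.closure
      (((S.attach.image (fun s => (⟨s.1, hSL s.1 s.2⟩ : L)) : Finset L) : Set L) ∪ KL) with hM
    have hYR : FY b Y ≤ R₁ := by
      have := RR_mono b (H := H) h01
      rwa [RR_eq b hN] at this
    have hKM : R₁ ⊔ H ≤ M.map L.subtype := by
      intro x hx
      exact ⟨⟨x, hKL hx⟩, Subgroup.subset_closure (Or.inr hx), rfl⟩
    have h1 : L ≤ M.map L.subtype := by
      refine sup_le ?_ (le_sup_right.trans hKM)
      rw [hR₂, hS]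
      refine sup_le ((hYR.trans le_sup_left).trans hKM) ((Subgroup.closure_le _).2 ?_)
      intro s hs
      refine ⟨⟨s, hSL s hs⟩, Subgroup.subset_closure (Or.inl ?_), rfl⟩
      exact Finset.mem_coe.2 (Finset.mem_image.2 ⟨⟨s, hs⟩, Finset.mem_attach _ _, rfl⟩)
    rw [eq_top_iff]
    intro x _
    obtain ⟨y, hy, hyx⟩ := h1 x.2
    have : y = x := Subtype.ext hyx
    rwa [← this]
  have hinv : ∀ t ∈ 𝒰, ∀ f ∈ FL, f • t ∈ 𝒰 := by
    rintro _ ⟨h, hh, s, hs, rfl, h1, h2⟩ f hf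
    refine ⟨h, hh, (⟨f, hf⟩ : F) • s, (hUh h).smul_mem _ s hs, hsmul hh hs f hf, h1.smul_set, ?_⟩
    rw [← Set.smul_set_compl]
    exact h2.smul_set
  have hfree : ∀ t ∈ 𝒰, ∀ f ∈ FL, f • t = t → f = 1 := by
    rintro _ ⟨h, hh, s, hs, rfl, ⟨q, hq⟩, ⟨p, hp⟩⟩ f hf hft
    obtain ⟨y, rfl⟩ := QuotientGroup.mk_surjective p
    obtain ⟨a, ha, hay⟩ := hdec y
    obtain ⟨y', rfl⟩ := QuotientGroup.mk_surjective q
    obtain ⟨c, hc, hcy⟩ := hdec y'
    have h1 : ∀ k : ℕ, f ^ k • hatL F L KL s = hatL F L KL s := by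
      intro k
      induction k with
      | zero => simp
      | succ k ih => rw [pow_succ, mul_smul, hft, ih]
    have h2 : (⟨f, hf⟩ : F) = 1 := by
      refine pow_smul_ne (F_tf b) (S := {s ∈ Uh h | (⟨a, ha⟩ : F) ∉ s ∧ (⟨c, hc⟩ : F) ∈ s})
        ((hUh h).finite _ _) (fun s hs => (hUh h).free s hs.1) (s := s) ?_
      intro k
      have hk : (⟨f, hf⟩ : F) ^ k • s ∈ Uh h := (hUh h).smul_mem _ s hs
      have h3 : hatL F L KL ((⟨f, hf⟩ : F) ^ k • s) = hatL F L KL s := by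
        have h4 := hsmul hh hs (f ^ k) (FL.pow_mem hf k)
        rw [h1 k] at h4
        rw [h4]
        rfl
      refine ⟨hk, fun h => hp ?_, ?_⟩
      · change (y : L ⧸ KL) ∈ hatL F L KL s
        rw [← h3, ← hay]
        exact (hmem hh hk a ha).2 h
      · have h5 : (y' : L ⧸ KL) ∈ hatL F L KL s := hq
        rw [← h3, ← hcy] at h5
        exact (hmem hh hk c hc).1 h5
    have h3 : (f : G) = 1 := congrArg (fun z : F => (z : G)) h2
    exact Subtype.ext h3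
  have hrepr : ∀ q : G ⧸ F, ∃ t : G, t ∈ H ∧ ((∃ h ∈ H, (h : G ⧸ F) = q) → (t : G ⧸ F) = q) := by
    intro q
    by_cases h : ∃ h ∈ H, (h : G ⧸ F) = q
    · obtain ⟨t, ht, htq⟩ := h
      exact ⟨t, ht, fun _ => htq⟩
    · exact ⟨1, H.one_mem, fun h' => absurd h' h⟩
  choose τ hτ1 hτ2 using hrepr
  have hUsub : ∀ h ∈ H, Uh h ⊆ Uh (τ (h : G ⧸ F)) := by
    rintro h hh _ ⟨s, hs, rfl⟩
    set u := τ (h : G ⧸ F) with hu
    have h1 : (u : G ⧸ F) = (h : G ⧸ F) := hτ2 _ ⟨h, hh, rfl⟩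
    have h2 : u⁻¹ * h ∈ F := QuotientGroup.eq.1 h1
    have h3 : u⁻¹ * h ∈ FY b Y₁ := hA ⟨h2, H.mul_mem (H.inv_mem (hτ1 _)) hh⟩
    set a' : FreeGroup X := b.symm ⟨u⁻¹ * h, h2⟩ with ha'
    have h4 : a' ∈ Subgroup.closure (FreeGroup.of '' Y₁) := (mem_FY_iff b Y₁ ⟨u⁻¹ * h, h2⟩).1 h3
    refine ⟨a' • s, hU.smul_mem _ s hs, ?_⟩
    ext x
    rw [mem_preimage, mem_preimage, Set.mem_smul_set_iff_inv_smul_mem]
    have h5 : (eh b h).symm x = a'⁻¹ * (eh b u).symm x * a' := by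
      rw [eh_symm, eh_symm, ha', ← map_inv b.symm, ← map_mul b.symm, ← map_mul b.symm]
      congr 1
      apply Subtype.ext
      rw [coe_conjNormal_inv, Subgroup.coe_mul, Subgroup.coe_mul, Subgroup.coe_inv,
        coe_conjNormal_inv]
      group
    rw [h5]
    exact (hU.right_inv s hs _ _ h4).symm
  have hfin2 : ∀ p q : L ⧸ KL, {t ∈ 𝒰 | p ∉ t ∧ q ∈ t}.Finite := by
    intro p q
    obtain ⟨y, rfl⟩ := QuotientGroup.mk_surjective p
    obtain ⟨a, ha, hay⟩ := hdec y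
    obtain ⟨y', rfl⟩ := QuotientGroup.mk_surjective q
    obtain ⟨c, hc, hcy⟩ := hdec y'
    have hfinq : Finite (G ⧸ F) := inferInstance
    refine (Set.finite_iUnion (fun q : G ⧸ F =>
      ((hUh (τ q)).finite (⟨a, ha⟩ : F) (⟨c, hc⟩ : F)).image (hatL F L KL))).subset ?_
    rintro _ ⟨⟨h, hh, s, hs, rfl, -, -⟩, h3, h4⟩
    refine mem_iUnion.2 ⟨(h : G ⧸ F), s, ⟨hUsub h hh hs, ?_, ?_⟩, rfl⟩
    · intro h5
      apply h3
      change (y : L ⧸ KL) ∈ hatL F L KL s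
      rw [← hay]
      exact (hmem hh hs a ha).2 h5
    · have h5 : (y' : L ⧸ KL) ∈ hatL F L KL s := h4
      rw [← hcy] at h5
      exact (hmem hh hs c hc).1 h5
  have hsep : ∀ p q : L ⧸ KL, p ≠ q → ∃ t ∈ 𝒰, p ∉ t ∧ q ∈ t := by
    intro p q hpq
    obtain ⟨y, rfl⟩ := QuotientGroup.mk_surjective p
    obtain ⟨a, ha, hay⟩ := hdec y
    obtain ⟨y', rfl⟩ := QuotientGroup.mk_surjective q
    obtain ⟨c, hc, hcy⟩ := hdec y'
    have h1 : (a : G)⁻¹ * c ∉ R₁ := by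
      intro h
      apply hpq
      change (y : L ⧸ KL) = (y' : L ⧸ KL)
      rw [← hay, ← hcy, QuotientGroup.eq]
      exact Subgroup.mem_sup_left h
    have h2 : ∃ h ∈ H, h⁻¹ * ((a : G)⁻¹ * c) * h ∉ FY b Y₁ := by
      by_contra hcon
      push Not at hcon
      exact h1 ((mem_RR b).2 hcon)
    obtain ⟨h, hh, h3⟩ := h2
    have h4 : (⟨a, ha⟩ : F)⁻¹ * ⟨c, hc⟩ ∉
        (Subgroup.closure (FreeGroup.of '' Y₁)).map (eh b h).toMonoidHom := by
      rw [mem_map_eh]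
      exact h3
    obtain ⟨s, hs, h5, h6⟩ := (hUh h).sep _ _ h4
    have h7 : (y : L ⧸ KL) ∉ hatL F L KL s := by
      rw [← hay]
      exact fun h8 => h5 ((hmem hh hs a ha).1 h8)
    have h8 : (y' : L ⧸ KL) ∈ hatL F L KL s := by
      rw [← hcy]
      exact (hmem hh hs c hc).2 h6
    exact ⟨_, ⟨h, hh, s, hs, rfl, ⟨_, h8⟩, ⟨_, h7⟩⟩, h7, h8⟩
  obtain ⟨φ, h1, h2⟩ := hstep L Ω FL KL hsup htf hfg 𝒰 hinv hfree hfin2 hsep
    (fun g => φ₀ g) (by
      intro x hx y hy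
      exact hφ₀ x hx y hy)
  refine ⟨fun g => if h : g ∈ L then φ ⟨g, h⟩ else 1, ?_, ?_⟩
  · intro x hx y hy
    have hxy : x * y ∈ L := L.mul_mem hx hy
    simp only [dif_pos hx, dif_pos hy, dif_pos hxy]
    exact h1 ⟨x, hx⟩ trivial ⟨y, hy⟩ trivial
  · intro k hk
    simp only [dif_pos (hKL hk)]
    exact h2 ⟨k, hKL hk⟩ hk

end Pool.Agent.Y28.LR
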