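import Pool.Agent.Y28.LR.Defs

set_option autoImplicit false

/-!
# Property (LR) for virtually free groups: statements of the pieces

Every piece is a proposition `P_...`; the pieces are proved separately, a piece which uses others
takes them as hypotheses.
-/

namespace Pool.Agent.Y28.LR

open Set Pointwise

/-- finitely many tight cuts of bounded size contain a given edge -/
def P_tight : Prop :=
  ∀ (V : Type) (X : SimpleGraph V), X.Connected → ∀ (n : ℕ) (x y : V), X.Adj x y →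
    {s : Set V | x ∈ s ∧ y ∉ s ∧ Conn X s ∧ Conn X sᶜ ∧ (bd X s).Finite ∧
      (bd X s).ncard ≤ n}.Finite

/-- finitely many tight cuts of bounded size are not nested with a given cut -/
def P_cross : Prop :=
  ∀ (V : Type) (X : SimpleGraph V), X.Connected → ∀ (n : ℕ) (s : Set V), (bd X s).Finite →
    {t : Set V | ¬ Nested t s ∧ Conn X t ∧ Conn X tᶜ ∧ (bd X t).Finite ∧
      (bd X t).ncard ≤ n}.Finite

/-- finitely many tight cuts of bounded size separate two given vertices -/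
def P_sep : Prop :=
  ∀ (V : Type) (X : SimpleGraph V), X.Connected → ∀ (n : ℕ) (p q : V),
    {t : Set V | p ∉ t ∧ q ∈ t ∧ Conn X t ∧ Conn X tᶜ ∧ (bd X t).Finite ∧
      (bd X t).ncard ≤ n}.Finite

/-- Dunwoody's theorem on nested generating sets of cuts -/
def P_dunwoody : Prop :=
  ∀ (V G : Type) [Group G] [MulAction G V] (X : SimpleGraph V), X.Connected →
    (∀ (g : G) (x y : V), X.Adj x y → X.Adj (g • x) (g • y)) → ∀ n : ℕ,
    ∃ E : Set (Set V), TreeSet G E ∧ (∀ s ∈ E, (bd X s).Finite ∧ (bd X s).Nonempty) ∧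
      ∀ s : Set V, (bd X s).Finite → (bd X s).ncard ≤ n → s ∈ BooleanSubalgebra.closure E

/-- the members of a tree set separating two points form a finite chain -/
def P_list : Prop :=
  ∀ (V G : Type) [Group G] [MulAction G V] (E : Set (Set V)), TreeSet G E → ∀ p q : V,
    ∃ l : List (Set V), l.Pairwise (fun s t => t ⊂ s) ∧ ∀ s, s ∈ l ↔ s ∈ E ∧ p ∉ s ∧ q ∈ s

/-- products of labels along the paths of the tree -/
def P_w : Prop :=
  ∀ (V G N : Type) [Group G] [MulAction G V] [Group N] (E : Set (Set V)), TreeSet G E →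
    ∀ ℓ : Set V → N, (∀ s ∈ E, ℓ sᶜ = (ℓ s)⁻¹) →
    ∃ w : V → V → N, (∀ p q r, w p q * w q r = w p r) ∧
      ∀ p q (l : List (Set V)), l.Pairwise (fun s t => t ⊂ s) →
        (∀ s, s ∈ l ↔ s ∈ E ∧ p ∉ s ∧ q ∈ s) → w p q = (l.map ℓ).prod

/-- extension of a crossed homomorphism from a vertex stabiliser -/
def P_extend : Prop :=
  ∀ (G V N : Type) [Group G] [MulAction G V] [MulAction.IsPretransitive G V] [Group N]
    [MulDistribMulAction G N] (E : Set (Set V)), TreeSet G E →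
    (∀ p q : V, p ≠ q → ∃ s ∈ E, p ∉ s ∧ q ∈ s) → ∀ (v : V) (φ₀ : G → N),
    CH (MulAction.stabilizer G v) φ₀ →
    (∀ s ∈ E, ∃ x : N, ∀ c ∈ MulAction.stabilizer G v, c • s = s → φ₀ c = x * (c • x)⁻¹) →
    ∃ φ : G → N, CH ⊤ φ ∧ ∀ c ∈ MulAction.stabilizer G v, φ c = φ₀ c

/-- a crossed homomorphism of a finite group permuting the basis of a free group is principal -/
def P_fixed : Prop :=
  ∀ (C Ω : Type) [Group C] [Finite C] [MulAction C Ω] (φ : C → FreeGroup Ω), CH ⊤ φ →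
    ∃ x : FreeGroup Ω, ∀ c : C, φ c = x * (c • x)⁻¹

/-- the cuts of the Cayley tree of a free group by the edges with labels outside `Y` -/
def P_cuts : Prop :=
  ∀ (X : Type) (Y : Set X), ∃ U : Set (Set (FreeGroup X)),
    CutFamily (Subgroup.closure (FreeGroup.of '' Y)) U

/-- the cuts of the Cayley tree of a free group, and the translation axes -/
def P_cutshyp : Prop :=
  ∀ (X : Type), ∃ U : Set (Set (FreeGroup X)),
    CutFamily (⊥ : Subgroup (FreeGroup X)) U ∧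
      ∀ f : FreeGroup X, f ≠ 1 → ∃ s ∈ U, ∃ p : FreeGroup X, ∀ n : ℕ, 1 ≤ n →
        f ^ n * p ∈ s ∧ (f⁻¹) ^ n * p ∉ s

/-- `P ∩ D` is a retract of `P` -/
def P_retract : Prop :=
  ∀ (A : Type) [Group A], (∀ a : A, ∀ n : ℕ, 1 ≤ n → a ^ n = 1 → a = 1) →
    ∀ (D : Subgroup A) (U : Set (Set A)), CutFamily D U → ∀ P : Subgroup A,
    ∃ ρ : P →* A, (∀ p, ρ p ∈ P ⊓ D) ∧ ∀ p : P, (p : A) ∈ D → ρ p = p

/-- one relatively finitely generated step -/
def P_step : Prop :=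
  ∀ (G Ω : Type) [Group G] [MulAction G Ω] (F K : Subgroup G) [F.Normal] [F.FiniteIndex],
    F ⊔ K = ⊤ → (∀ f ∈ F, ∀ n : ℕ, 1 ≤ n → f ^ n = 1 → f = 1) →
    (∃ S : Finset G, Subgroup.closure ((S : Set G) ∪ K) = ⊤) →
    ∀ U : Set (Set (G ⧸ K)), (∀ s ∈ U, ∀ f ∈ F, f • s ∈ U) →
    (∀ s ∈ U, ∀ f ∈ F, f • s = s → f = 1) →
    (∀ p q : G ⧸ K, {s ∈ U | p ∉ s ∧ q ∈ s}.Finite) →
    (∀ p q : G ⧸ K, p ≠ q → ∃ s ∈ U, p ∉ s ∧ q ∈ s) →
    ∀ φ₀ : G → FreeGroup Ω, CH K φ₀ →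
    ∃ φ : G → FreeGroup Ω, CH ⊤ φ ∧ ∀ k ∈ K, φ k = φ₀ k

/-- the cores are relatively finitely generated -/
def P_rrfg : Prop :=
  ∀ (G X : Type) [Group G] (F : Subgroup G) [F.Normal] [F.FiniteIndex]
    (b : FreeGroup X ≃* F) (H : Subgroup G) (Y Y₁ : Set X), Y ⊆ Y₁ → (Y₁ \ Y).Finite →
    (∀ h ∈ H, ∀ x ∈ FY b Y, h * x * h⁻¹ ∈ FY b Y) → F ⊓ H ≤ FY b Y₁ →
    ∃ S : Finset G, RR b H Y₁ = FY b Y ⊔ Subgroup.closure (S : Set G)

/-- one step of the extension in the ambient group -/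
def P_stepRR : Prop :=
  ∀ (G X Ω : Type) [Group G] [MulAction G Ω] (F : Subgroup G) [F.Normal]
    [F.FiniteIndex] (b : FreeGroup X ≃* F) (H : Subgroup G) (Y Y₁ Y₂ : Set X), Y ⊆ Y₁ →
    Y₁ ⊆ Y₂ → (Y₂ \ Y).Finite →
    (∀ h ∈ H, ∀ x ∈ FY b Y, h * x * h⁻¹ ∈ FY b Y) → F ⊓ H ≤ FY b Y₁ →
    ∀ φ₀ : G → FreeGroup Ω, CH (RR b H Y₁ ⊔ H) φ₀ →
    ∃ φ : G → FreeGroup Ω, CH (RR b H Y₂ ⊔ H) φ ∧ ∀ k ∈ RR b H Y₁ ⊔ H, φ k = φ₀ k

/-- finitely generated virtually free groups embed in semidirect products of free groups with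
finite groups of permutations of the basis -/
def P_base : Prop :=
  ∀ (G X : Type) [Group G], Group.FG G → ∀ (F : Subgroup G) [F.Normal] [F.FiniteIndex],
    (FreeGroup X ≃* F) →
    ∃ (Ω : Type) (_ : MulAction G Ω) (φ : G → FreeGroup Ω), (∀ f ∈ F, ∀ ω : Ω, f • ω = ω) ∧
      CH ⊤ φ ∧ ∀ f ∈ F, φ f = 1 → f = 1

/-- property (LR) for `FreeGroup Ω ⋊ Q` -/
def P_lrW : Prop :=
  ∀ (Ω Q : Type) [Finite Ω] [Group Q] [Finite Q] [MulAction Q Ω]
    (H : Subgroup (FreeGroup Ω ⋊[permAct Q Ω] Q)), H.FG →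
    ∃ K : Subgroup (FreeGroup Ω ⋊[permAct Q Ω] Q), K.FiniteIndex ∧ H ≤ K ∧
      ∃ ρ : K →* (FreeGroup Ω ⋊[permAct Q Ω] Q), (∀ k, ρ k ∈ H) ∧
        ∀ k : K, (k : FreeGroup Ω ⋊[permAct Q Ω] Q) ∈ H → ρ k = k

/-- extension of crossed homomorphisms to the whole group -/
def P_chain : Prop :=
  ∀ (G X Ω : Type) [Group G] [MulAction G Ω] (F : Subgroup G) [F.Normal]
    [F.FiniteIndex] (b : FreeGroup X ≃* F) (H : Subgroup G), H.FG → ∀ Y : Set X,
    Y.Finite → F ⊓ H ≤ FY b Y →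
    ∀ φ₀ : G → FreeGroup Ω, CH (RR b H Y ⊔ H) φ₀ →
    ∃ φ : G → FreeGroup Ω, CH (F ⊔ H) φ ∧ ∀ k ∈ RR b H Y ⊔ H, φ k = φ₀ k

end Pool.Agent.Y28.LR
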