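import Pool.Agent.Y28.LR.Extend
import Pool.Agent.Y28.LR.Chain
import Pool.Agent.Y28.LR.Final
import Pool.Agent.Y28.LR.Retract
import Pool.Agent.Y28.LR.RRfg
import Pool.Agent.Y28.LR.StepRR
import Pool.Agent.Y31.LR.Tight
import Pool.Agent.Y31.LR.Labels
import Pool.Agent.Y79.LR.Dunwoody
import Pool.Agent.Y79.LR.Step
import Pool.Agent.Y79.LR.Base
import Pool.Agent.Y43.LR.Fixed
import Pool.Agent.Y43.LR.Cuts
import Pool.Agent.Y43.LR.LrW

set_option autoImplicit false

/-!
# Property (LR) for virtually free groups: assembling all pieces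
-/

namespace Pool.Agent.Y28.LR

theorem p_dunwoody : P_dunwoody := Pool.Agent.Y79.LR.dunwoody Pool.Agent.Y31.LR.cross
  Pool.Agent.Y31.LR.sep

theorem p_extend : P_extend := extend Pool.Agent.Y31.LR.list Pool.Agent.Y31.LR.w

theorem p_step : P_step := Pool.Agent.Y79.LR.Step.step p_dunwoody p_extend Pool.Agent.Y43.LR.fixed

theorem p_retract : P_retract := retract p_extend

theorem p_rrfg : P_rrfg := rrfg Pool.Agent.Y43.LR.cuts p_retract

theorem p_stepRR : P_stepRR := stepRR Pool.Agent.Y43.LR.cuts p_step p_rrfg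

theorem p_chain : P_chain := chain p_stepRR

theorem p_base : P_base := Pool.Agent.Y79.LR.Base.base p_dunwoody Pool.Agent.Y31.LR.list
  Pool.Agent.Y31.LR.w Pool.Agent.Y43.LR.cutshyp

theorem all (G : Type) [Group G]
    (hG : ∃ F : Subgroup G, F.FiniteIndex ∧ IsFreeGroup F) (H : Subgroup G) (hH : H.FG) : VR H :=
  final p_chain p_base Pool.Agent.Y43.LR.lrW p_rrfg G hG H hH

end Pool.Agent.Y28.LR
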