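import Mathlib

set_option autoImplicit false

/-!
# Property (LR) for virtually free groups (MP_a112e0_al, S02523): definitions

Plan: a group `G` with a normal free subgroup `F` of finite index is mapped to a semidirect product
`FreeGroup Ω ⋊ G/F` by a crossed homomorphism `φ : G → FreeGroup Ω` which is injective on the
intersection of `F` with the given finitely generated subgroup `H`.
-/

namespace Pool.Agent.Y28.LR

open Set Pointwise

/-! ## Cuts in graphs -/

section cuts

variable {V : Type}

/-- the edges from `s` to its complement -/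
def bd (X : SimpleGraph V) (s : Set V) : Set (V × V) := {e | X.Adj e.1 e.2 ∧ e.1 ∈ s ∧ e.2 ∉ s}

/-- two sets are nested if one of the four corners is empty -/
def Nested (s t : Set V) : Prop := s ⊆ t ∨ t ⊆ s ∨ Disjoint s t ∨ s ∪ t = univ

/-- `s` is connected in `X` -/
def Conn (X : SimpleGraph V) (s : Set V) : Prop :=
  ∀ u, u ⊆ s → u.Nonempty → u ≠ s → ∃ x ∈ u, ∃ y ∈ s, y ∉ u ∧ X.Adj x y

/-- a `G`-invariant nested family of proper subsets of `V`, closed under complements, such that only
finitely many members separate two given points -/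
structure TreeSet (G : Type) [Group G] [MulAction G V] (E : Set (Set V)) : Prop where
  smul_mem : ∀ (g : G), ∀ s ∈ E, g • s ∈ E
  compl_mem : ∀ s ∈ E, sᶜ ∈ E
  proper : ∀ s ∈ E, s.Nonempty ∧ sᶜ.Nonempty
  nested : ∀ s ∈ E, ∀ t ∈ E, Nested s t
  finite : ∀ p q : V, {s ∈ E | p ∉ s ∧ q ∈ s}.Finite

end cuts

/-! ## Crossed homomorphisms -/

section crossed

variable {G N : Type} [Group G] [Group N] [MulDistribMulAction G N]

/-- `φ` restricts to a crossed homomorphism on the subgroup `K` -/
def CH (K : Subgroup G) (φ : G → N) : Prop := ∀ a ∈ K, ∀ b ∈ K, φ (a * b) = φ a * a • φ b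

end crossed

/-- the action on the free group on `Ω` by permutations of the basis -/
instance freeAct {G Ω : Type} [Group G] [MulAction G Ω] : MulDistribMulAction G (FreeGroup Ω) where
  smul g x := FreeGroup.map (fun ω => g • ω) x
  one_smul x := by
    change FreeGroup.map (fun ω => (1 : G) • ω) x = x
    simp
  mul_smul a b x := by
    change FreeGroup.map (fun ω => (a * b) • ω) x =
      FreeGroup.map (fun ω => a • ω) (FreeGroup.map (fun ω => b • ω) x)
    rw [FreeGroup.map.comp]
    congr 1
    ext ω
    simp [mul_smul]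
  smul_mul g x y := map_mul (FreeGroup.map (fun ω => g • ω)) x y
  smul_one g := map_one (FreeGroup.map (fun ω => g • ω))

theorem smul_eq_map {G Ω : Type} [Group G] [MulAction G Ω] (g : G) (x : FreeGroup Ω) :
    g • x = FreeGroup.map (fun ω => g • ω) x := rfl

@[simp] theorem smul_of {G Ω : Type} [Group G] [MulAction G Ω] (g : G) (ω : Ω) :
    g • (FreeGroup.of ω) = FreeGroup.of (g • ω) := by
  rw [smul_eq_map, FreeGroup.map.of]

/-! ## Families of cuts of a group relative to a subgroup -/

/-- a left invariant nested family of subsets of `A`, closed under complements, right invariant under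
`D`, with trivial stabilisers, such that only finitely many members separate two given points and
the members separate any two points in different cosets of `D` -/
structure CutFamily {A : Type} [Group A] (D : Subgroup A) (U : Set (Set A)) : Prop where
  smul_mem : ∀ (g : A), ∀ s ∈ U, g • s ∈ U
  compl_mem : ∀ s ∈ U, sᶜ ∈ U
  nested : ∀ s ∈ U, ∀ t ∈ U, Nested s t
  right_inv : ∀ s ∈ U, ∀ g : A, ∀ d ∈ D, (g * d ∈ s ↔ g ∈ s)
  free : ∀ s ∈ U, ∀ g : A, g • s = s → g = 1
  finite : ∀ p q : A, {s ∈ U | p ∉ s ∧ q ∈ s}.Finite
  sep : ∀ p q : A, p⁻¹ * q ∉ D → ∃ s ∈ U, p ∉ s ∧ q ∈ s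

/-! ## The ambient situation -/

section ambient

variable {G X : Type} [Group G] {F : Subgroup G}

/-- the subgroup of `G` generated by the part `Y` of the basis of `F` -/
def FY (b : FreeGroup X ≃* F) (Y : Set X) : Subgroup G :=
  Subgroup.closure ((fun x => ((b (FreeGroup.of x) : F) : G)) '' Y)

/-- the largest subgroup of `FY b Y` normalised by `H` -/
def RR (b : FreeGroup X ≃* F) (H : Subgroup G) (Y : Set X) : Subgroup G :=
  ⨅ h : H, (FY b Y).map (MulAut.conj (h : G)).toMonoidHom

end ambient

/-- the semidirect product of the free group on `Ω` with `Q` -/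
abbrev permAct (Q Ω : Type) [Group Q] [MulAction Q Ω] : Q →* MulAut (FreeGroup Ω) :=
  MulDistribMulAction.toMulAut Q (FreeGroup Ω)

end Pool.Agent.Y28.LR
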