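import Pool.Agent.Y28.LR.Stm

set_option autoImplicit false

/-!
# Extension of crossed homomorphisms along a tree set
-/

namespace Pool.Agent.Y28.LR

open Set Pointwise

section adj

variable {V : Type} {E : Set (Set V)}

/-- the point `p` is the origin of the oriented edge `s` -/
def AdjE (E : Set (Set V)) (p : V) (s : Set V) : Prop :=
  s ∈ E ∧ p ∉ s ∧ ∀ t ∈ E, p ∉ t → s ⊆ t → t = s

theorem adjE_unique (hn : ∀ s ∈ E, ∀ t ∈ E, Nested s t) (hc : ∀ s ∈ E, sᶜ ∈ E)
    (hsep : ∀ p q : V, p ≠ q → ∃ s ∈ E, p ∉ s ∧ q ∈ s) {p p' : V} {s : Set V}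
    (h : AdjE E p s) (h' : AdjE E p' s) : p = p' := by
  by_contra hne
  obtain ⟨u, hu, h1, h2⟩ := hsep p p' hne
  rcases hn u hu s h.1 with h3 | h3 | h3 | h3
  · exact h'.2.1 (h3 h2)
  · exact h'.2.1 ((h.2.2 u hu h1 h3) ▸ h2)
  · have h4 : s ⊆ uᶜ := fun x hx hxu => (Set.disjoint_left.1 h3) hxu hx
    have h5 := h'.2.2 uᶜ (hc u hu) (fun h => h h2) h4
    exact h.2.1 (h5 ▸ h1)
  · have h4 : p ∈ u ∪ s := by rw [h3]; trivial
    rcases h4 with h4 | h4
    · exact h1 h4
    · exact h.2.1 h4

theorem adjE_step_aux (hn : ∀ s ∈ E, ∀ t ∈ E, Nested s t) (hc : ∀ s ∈ E, sᶜ ∈ E)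
    (hp : ∀ s ∈ E, s.Nonempty) {s t : Set V} (ht : t ∈ E) (hst : t ⊂ s)
    (hbet : ∀ u ∈ E, t ⊂ u → u ⊂ s → False) {r : V} (h : AdjE E r sᶜ) : AdjE E r t := by
  obtain ⟨h1, h2, h3⟩ := h
  have hs : s ∈ E := by simpa using hc _ h1
  have hr : r ∈ s := by
    by_contra h
    exact h2 h
  refine ⟨ht, fun hrt => ?_, fun u hu hru htu => ?_⟩
  · have h4 := h3 tᶜ (hc t ht) (fun h => h hrt) (compl_subset_compl.2 hst.1)
    have h5 : t = s := compl_injective h4
    exact hst.ne h5
  · by_contra hne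
    have htu' : t ⊂ u := lt_of_le_of_ne htu (Ne.symm hne)
    rcases hn u hu s hs with h4 | h4 | h4 | h4
    · exact hbet u hu htu' (lt_of_le_of_ne h4 (fun h => hru (h ▸ hr)))
    · exact hru (h4 hr)
    · obtain ⟨x, hx⟩ := hp t ht
      exact Set.disjoint_left.1 h4 (htu hx) (hst.1 hx)
    · have h5 : sᶜ ⊆ u := fun x hx => by
        have : x ∈ u ∪ s := by rw [h4]; trivial
        rcases this with h | h
        · exact h
        · exact absurd h hx
      have h6 := h3 u hu hru h5
      obtain ⟨x, hx⟩ := hp t ht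
      have h7 := htu hx
      rw [h6] at h7
      exact h7 (hst.1 hx)

theorem adjE_step (hn : ∀ s ∈ E, ∀ t ∈ E, Nested s t) (hc : ∀ s ∈ E, sᶜ ∈ E)
    (hp : ∀ s ∈ E, s.Nonempty) {s t : Set V} (hs : s ∈ E) (ht : t ∈ E) (hst : t ⊂ s)
    (hbet : ∀ u ∈ E, t ⊂ u → u ⊂ s → False) (r : V) : AdjE E r sᶜ ↔ AdjE E r t := by
  refine ⟨adjE_step_aux hn hc hp ht hst hbet, fun h => ?_⟩
  refine adjE_step_aux hn hc hp (hc s hs) (s := tᶜ) (compl_lt_compl_iff_lt.2 hst) ?_
    (by rwa [compl_compl])
  intro u hu h1 h2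
  refine hbet uᶜ (hc u hu) ?_ ?_
  · have := compl_lt_compl_iff_lt.2 h2
    rwa [compl_compl] at this
  · have := compl_lt_compl_iff_lt.2 h1
    rwa [compl_compl] at this

end adj

section lists

variable {V N : Type} [Group N] {E : Set (Set V)}

theorem chain_of_list {q : V} : ∀ (l : List (Set V)), l.Pairwise (fun s t => t ⊂ s) →
    (∀ s ∈ l, q ∈ s) → (∀ s ∈ l, ∀ u ∈ E, q ∈ u → u ⊂ s → u ∈ l) →
    l.IsChain (fun s t => t ⊂ s ∧ ∀ u ∈ E, t ⊂ u → u ⊂ s → False)
  | [], _, _, _ => List.IsChain.nil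
  | [s], _, _, _ => List.IsChain.singleton s
  | s :: t :: l, h1, h2, h3 => by
    have h1' := List.pairwise_cons.1 h1
    have h1'' := List.pairwise_cons.1 h1'.2
    refine List.IsChain.cons_cons ⟨h1'.1 t (by simp), fun u hu htu hus => ?_⟩
      (chain_of_list (t :: l) h1'.2 (fun s hs => h2 s (List.mem_cons_of_mem _ hs)) ?_)
    · have hq : q ∈ u := htu.1 (h2 t (by simp))
      have h4 := h3 s (by simp) u hu hq hus
      rw [List.mem_cons, List.mem_cons] at h4
      rcases h4 with h4 | h4 | h4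
      · exact hus.ne h4
      · exact htu.ne h4.symm
      · exact lt_asymm htu (h1''.1 u h4)
    · intro s' hs' u hu hq hus'
      have h4 := h3 s' (List.mem_cons_of_mem _ hs') u hu hq hus'
      rw [List.mem_cons] at h4
      rcases h4 with h4 | h4
      · exfalso
        have h5 := h1'.1 s' hs'
        rw [h4] at hus'
        exact lt_asymm hus' h5
      · exact h4

theorem telescope (m c : Set V → N) : ∀ (s : Set V) (l : List (Set V)),
    (s :: l).IsChain (fun s t => c sᶜ = c t) →
    ((s :: l).map (fun s => c s * m s * (c sᶜ)⁻¹)).prod =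
      c s * ((s :: l).map m).prod * (c ((s :: l).getLast (by simp))ᶜ)⁻¹
  | s, [], _ => by simp
  | s, t :: l, h => by
    have h1 := List.isChain_cons_cons.1 h
    have ih := telescope m c t l h1.2
    rw [List.map_cons, List.prod_cons, ih, List.map_cons (f := m) (a := s), List.prod_cons,
      List.getLast_cons (a := s) (l := t :: l) (by simp), h1.1]
    group

theorem getLast_le : ∀ (l : List (Set V)) (hl : l ≠ []), l.Pairwise (fun s t => t ⊂ s) →
    ∀ s ∈ l, l.getLast hl ⊆ s
  | [], hl, _, _, _ => absurd rfl hl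
  | [a], _, _, s, hs => by
    rw [List.mem_singleton] at hs
    simp [hs]
  | a :: b :: l, _, h, s, hs => by
    have h' := List.pairwise_cons.1 h
    rw [List.getLast_cons (by simp)]
    rw [List.mem_cons] at hs
    rcases hs with rfl | hs
    · exact (getLast_le (b :: l) (by simp) h'.2 b (by simp)).trans (h'.1 b (by simp)).1
    · exact getLast_le (b :: l) (by simp) h'.2 s hs

end lists

section main

variable {G V N : Type} [Group G] [MulAction G V] [Group N] [MulDistribMulAction G N]
  {E : Set (Set V)}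

theorem CH.one {K : Subgroup G} {φ : G → N} (h : CH K φ) : φ 1 = 1 := by
  have := h 1 K.one_mem 1 K.one_mem
  rw [one_mul, one_smul] at this
  exact (mul_eq_left.1 this.symm)

/-- equivariant choice of base points -/
theorem exists_y {H : Subgroup G} {φ₀ : G → N} (hφ : CH H φ₀) (hE : ∀ g : G, ∀ s ∈ E, g • s ∈ E)
    (hedge : ∀ s ∈ E, ∃ x : N, ∀ c ∈ H, c • s = s → φ₀ c = x * (c • x)⁻¹) :
    ∃ y : Set V → N, ∀ h ∈ H, ∀ s ∈ E, y (h • s) = (h • y s) * (φ₀ h)⁻¹ := by
  classical
  -- representatives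
  let rep : Set V → Set V := fun s =>
    Quotient.out (s := MulAction.orbitRel H (Set V)) (Quotient.mk _ s)
  have hrep : ∀ s, ∃ h : H, h • rep s = s := by
    intro s
    have h1 : (MulAction.orbitRel H (Set V)).r (rep s) s := Quotient.exact (Quotient.out_eq _)
    have h2 := (MulAction.orbitRel H (Set V)).symm h1
    exact h2
  have hrep2 : ∀ (h : H) s, rep (h • s) = rep s := by
    intro h s
    have : Quotient.mk (MulAction.orbitRel H (Set V)) (h • s) = Quotient.mk _ s :=
      Quotient.sound ⟨h, rfl⟩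
    simp only [rep, this]
  choose k hk using hrep
  choose! x hx using hedge
  refine ⟨fun s => ((k s : G) • (x (rep s))⁻¹) * (φ₀ (k s))⁻¹, fun h hh s hs => ?_⟩
  have hr : rep s ∈ E := by
    have : rep s = ((k s : G))⁻¹ • s := by
      rw [eq_inv_smul_iff]
      exact hk s
    rw [this]
    exact hE _ s hs
  have hrs : rep (h • s) = rep s := hrep2 ⟨h, hh⟩ s
  -- the element of the stabiliser
  have hc : (((h * k s)⁻¹ * k (h • s) : G)) • rep s = rep s := by
    have h1 : (k (h • s) : G) • rep s = h • s := by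
      have := hk (h • s)
      rw [hrs] at this
      exact this
    have h2 : (k s : G) • rep s = s := hk s
    rw [mul_smul, h1, inv_smul_eq_iff, mul_smul, h2]
  have hcH : ((h * k s)⁻¹ * k (h • s) : G) ∈ H :=
    H.mul_mem (H.inv_mem (H.mul_mem hh (k s).2)) (k (h • s)).2
  have h3 := hx (rep s) hr _ hcH hc
  have hkk : (k (h • s) : G) = (h * k s) * ((h * k s)⁻¹ * k (h • s)) := by group
  have hksH : (h * k s : G) ∈ H := H.mul_mem hh (k s).2
  have h4 : φ₀ (k (h • s)) = φ₀ (h * k s) * (h * k s : G) • φ₀ ((h * k s)⁻¹ * k (h • s)) := by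
    conv_lhs => rw [hkk]
    exact hφ _ hksH _ hcH
  have h5 : φ₀ (h * k s) = φ₀ h * h • φ₀ (k s) := hφ _ hh _ (k s).2
  have h6 : (k (h • s) : G) • (x (rep s))⁻¹ =
      (h * k s : G) • (((h * k s)⁻¹ * k (h • s) : G) • (x (rep s))⁻¹) := by
    rw [← mul_smul]
    congr 1
  change ((k (h • s) : G) • (x (rep (h • s)))⁻¹) * (φ₀ (k (h • s)))⁻¹ =
    h • (((k s : G) • (x (rep s))⁻¹) * (φ₀ (k s))⁻¹) * (φ₀ h)⁻¹
  rw [hrs, h6, h4, h3, h5]
  simp only [smul_mul', smul_inv', mul_smul, mul_inv_rev, inv_inv]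
  group

/-- the extension theorem -/
theorem extend (hlist : P_list) (hw : P_w) : P_extend := by
  intro G V N _ _ _ _ _ E hE hsep v φ₀ hφ₀ hedge
  classical
  set H := MulAction.stabilizer G v with hH
  obtain ⟨y, hy⟩ := exists_y hφ₀ hE.smul_mem hedge
  -- section
  have hsec : ∃ g : V → G, (∀ p, g p • v = p) ∧ g v = 1 := by
    choose g hg using fun p => MulAction.exists_smul_eq G v p
    refine ⟨fun p => if p = v then 1 else g p, fun p => ?_, by simp⟩
    by_cases h : p = v
    · simp [h]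
    · simp [h, hg]
  obtain ⟨γ, hγ, hγv⟩ := hsec
  have hn := hE.nested
  have hcm := hE.compl_mem
  have hpr : ∀ s ∈ E, s.Nonempty := fun s hs => (hE.proper s hs).1
  have huniq : ∀ {p p' : V} {s : Set V}, AdjE E p s → AdjE E p' s → p = p' :=
    fun h h' => adjE_unique hn hcm hsep h h'
  have hadj : ∀ (g : G) {p : V} {s : Set V}, AdjE E p s → AdjE E (g • p) (g • s) := by
    intro g p s ⟨h1, h2, h3⟩
    refine ⟨hE.smul_mem g s h1, fun h => h2 (Set.smul_mem_smul_set_iff.1 h), fun t ht hpt hst => ?_⟩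
    have h4 := h3 (g⁻¹ • t) (hE.smul_mem _ t ht) (fun h => hpt (by
      have := Set.smul_mem_smul_set (a := g) h
      rwa [smul_inv_smul] at this)) (by
        rw [Set.subset_smul_set_iff, inv_inv]
        exact hst)
    rw [← h4, smul_inv_smul]
  -- the cocycle of the section
  let c : G → V → N := fun g p => γ (g • p) • φ₀ ((γ (g • p))⁻¹ * g * γ p)
  have hmem : ∀ g p, (γ (g • p))⁻¹ * g * γ p ∈ H := by
    intro g p
    rw [hH, MulAction.mem_stabilizer_iff, mul_smul, mul_smul, hγ, inv_smul_eq_iff, hγ]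
  have hcc : ∀ g h p, c (g * h) p = c g (h • p) * g • c h p := by
    intro g h p
    have h1 := hφ₀ _ (hmem g (h • p)) _ (hmem h p)
    have h2 : (γ (g • h • p))⁻¹ * g * γ (h • p) * ((γ (h • p))⁻¹ * h * γ p) =
        (γ ((g * h) • p))⁻¹ * (g * h) * γ p := by
      rw [mul_smul]
      group
    rw [h2] at h1
    change γ ((g * h) • p) • φ₀ ((γ ((g * h) • p))⁻¹ * (g * h) * γ p) = _
    rw [h1, smul_mul', mul_smul g h p]
    have h3 : γ (g • h • p) * ((γ (g • h • p))⁻¹ * g * γ (h • p)) = g * γ (h • p) := by group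
    change γ (g • h • p) • φ₀ ((γ (g • h • p))⁻¹ * g * γ (h • p)) *
      γ (g • h • p) • ((γ (g • h • p))⁻¹ * g * γ (h • p)) • φ₀ ((γ (h • p))⁻¹ * h * γ p) =
      γ (g • h • p) • φ₀ ((γ (g • h • p))⁻¹ * g * γ (h • p)) *
      g • γ (h • p) • φ₀ ((γ (h • p))⁻¹ * h * γ p)
    rw [smul_smul (γ (g • h • p)) ((γ (g • h • p))⁻¹ * g * γ (h • p)), h3, mul_smul g (γ (h • p))]
  -- base points at the edges
  let b : Set V → N := fun s => if h : ∃ p, AdjE E p s then γ h.choose • y ((γ h.choose)⁻¹ • s)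
    else 1
  have hb : ∀ {p : V} {s : Set V}, AdjE E p s → b s = γ p • y ((γ p)⁻¹ • s) := by
    intro p s h
    have h1 : ∃ p, AdjE E p s := ⟨p, h⟩
    have h2 : h1.choose = p := huniq h1.choose_spec h
    simp only [b, dif_pos h1, h2]
  have hb0 : ∀ {s : Set V}, (¬ ∃ p, AdjE E p s) → b s = 1 := by
    intro s h
    simp only [b, dif_neg h]
  -- the correction at the origin of `s`
  let d : G → Set V → N := fun g s => if h : ∃ p, AdjE E p s then c g h.choose else 1
  have hd : ∀ {g : G} {p : V} {s : Set V}, AdjE E p s → d g s = c g p := by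
    intro g p s h
    have h1 : ∃ p, AdjE E p s := ⟨p, h⟩
    have h2 : h1.choose = p := huniq h1.choose_spec h
    simp only [d, dif_pos h1, h2]
  have hd0 : ∀ {g : G} {s : Set V}, (¬ ∃ p, AdjE E p s) → d g s = 1 := by
    intro g s h
    simp only [d, dif_neg h]
  have hbg : ∀ (g : G) (s : Set V), b (g • s) = (g • b s) * (d g s)⁻¹ := by
    intro g s
    by_cases h : ∃ p, AdjE E p s
    · obtain ⟨p, h⟩ := h
      rw [hb (hadj g h), hb h, hd h]
      have h1 : (γ (g • p))⁻¹ • g • s = ((γ (g • p))⁻¹ * g * γ p) • (γ p)⁻¹ • s := by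
        rw [← mul_smul, ← mul_smul]
        congr 1
        group
      rw [h1, hy _ (hmem g p) _ (hE.smul_mem _ s h.1), smul_mul', smul_inv']
      congr 1
      rw [← mul_smul, ← mul_smul]
      congr 1
      group
    · have h' : ¬ ∃ p, AdjE E p (g • s) := by
        rintro ⟨p, hp⟩
        refine h ⟨g⁻¹ • p, ?_⟩
        have := hadj g⁻¹ hp
        rwa [inv_smul_smul] at this
      rw [hb0 h, hb0 h', hd0 h, smul_one, inv_one, one_mul]
  let ℓ : Set V → N := fun s => (b s)⁻¹ * b sᶜ
  have hℓ : ∀ s ∈ E, ℓ sᶜ = (ℓ s)⁻¹ := by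
    intro s _
    simp only [ℓ, compl_compl, mul_inv_rev, inv_inv]
  obtain ⟨w, hw1, hw2⟩ := hw V G N E hE ℓ hℓ
  have hww : ∀ p, w p p = 1 := fun p => mul_eq_left.1 (hw1 p p p)
  have hsc : ∀ (g : G) (s : Set V), g • sᶜ = (g • s)ᶜ := fun g s => Set.smul_set_compl
  have hℓg : ∀ (g : G) (s : Set V), ℓ (g • s) = d g s * (g • ℓ s) * (d g sᶜ)⁻¹ := by
    intro g s
    simp only [ℓ]
    rw [hbg, ← hsc, hbg, smul_mul', smul_inv', mul_inv_rev, inv_inv]
    group
  -- transformation of `w`
  have key : ∀ g p q, w (g • p) (g • q) = c g p * (g • w p q) * (c g q)⁻¹ := by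
    intro g p q
    by_cases hpq : p = q
    · subst hpq
      rw [hww, hww, smul_one, mul_one, mul_inv_cancel]
    · obtain ⟨l, hl1, hl2⟩ := hlist V G E hE p q
      have hlg : w (g • p) (g • q) = ((l.map (fun s => g • s)).map ℓ).prod := by
        refine hw2 _ _ _ ?_ ?_
        · rw [List.pairwise_map]
          refine hl1.imp ?_
          intro s t h
          refine lt_of_le_of_ne (Set.smul_set_subset_smul_set_iff.2 h.1) ?_
          intro h5
          exact h.ne (smul_left_cancel g h5)
        · intro s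
          rw [List.mem_map]
          constructor
          · rintro ⟨t, ht, rfl⟩
            obtain ⟨h1, h2, h3⟩ := (hl2 t).1 ht
            exact ⟨hE.smul_mem g t h1, fun h => h2 (Set.smul_mem_smul_set_iff.1 h),
              Set.smul_mem_smul_set h3⟩
          · rintro ⟨h1, h2, h3⟩
            refine ⟨g⁻¹ • s, (hl2 _).2 ⟨hE.smul_mem _ s h1, fun h => h2 ?_, ?_⟩, smul_inv_smul g s⟩
            · have := Set.smul_mem_smul_set (a := g) h
              rwa [smul_inv_smul] at this
            · have := Set.smul_mem_smul_set (a := g⁻¹) h3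
              rwa [inv_smul_smul] at this
      have hwpq : w p q = (l.map ℓ).prod := hw2 p q l hl1 hl2
      have hne : l ≠ [] := by
        obtain ⟨s, hs, h1, h2⟩ := hsep p q hpq
        intro h
        have := (hl2 s).2 ⟨hs, h1, h2⟩
        rw [h] at this
        simp at this
      obtain ⟨s, l', rfl⟩ := List.exists_cons_of_ne_nil hne
      have hchain := chain_of_list (E := E) (q := q) (s :: l') hl1 (fun s hs => ((hl2 s).1 hs).2.2)
        (fun s hs u hu hqu hus => (hl2 u).2 ⟨hu, fun h => ((hl2 s).1 hs).2.1 (hus.1 h), hqu⟩)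
      -- membership of all elements
      have hchain2 : (s :: l').IsChain (fun s t => d g sᶜ = d g t) := by
        have h1 : (s :: l').IsChain (fun s t => (t ⊂ s ∧ ∀ u ∈ E, t ⊂ u → u ⊂ s → False) ∧
            s ∈ E ∧ t ∈ E) := by
          have h2 : ∀ u ∈ s :: l', u ∈ E := fun u hu => ((hl2 u).1 hu).1
          clear_value ℓ
          clear hl1 hl2 hlg hwpq hne
          revert h2 hchain
          generalize (s :: l') = L
          intro hchain h2
          induction L with
          | nil => exact List.IsChain.nil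
          | cons a L ih =>
            cases L with
            | nil => exact List.IsChain.singleton a
            | cons b L =>
              have h3 := List.isChain_cons_cons.1 hchain
              refine List.IsChain.cons_cons ⟨h3.1, h2 a (by simp), h2 b (by simp)⟩
                (ih h3.2 (fun u hu => h2 u (List.mem_cons_of_mem _ hu)))
        refine h1.imp ?_
        rintro s t ⟨⟨h2, h3⟩, h4, h5⟩
        have h6 := adjE_step hn hcm hpr h4 h5 h2 h3
        by_cases h7 : ∃ p, AdjE E p t
        · obtain ⟨p, hp⟩ := h7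
          rw [hd hp, hd ((h6 p).2 hp)]
        · rw [hd0 h7, hd0 (fun ⟨p, hp⟩ => h7 ⟨p, (h6 p).1 hp⟩)]
      have hhead : AdjE E p s := by
        obtain ⟨h1, h2, h3⟩ := (hl2 s).1 (by simp)
        refine ⟨h1, h2, fun t ht hpt hst => ?_⟩
        have h4 := (hl2 t).2 ⟨ht, hpt, hst h3⟩
        rw [List.mem_cons] at h4
        rcases h4 with h4 | h4
        · exact h4
        · exact absurd (lt_of_le_of_lt hst ((List.pairwise_cons.1 hl1).1 t h4)) (lt_irrefl _)
      have hlast : AdjE E q ((s :: l').getLast (by simp))ᶜ := by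
        set z := (s :: l').getLast (by simp) with hz
        have hzl : z ∈ s :: l' := List.getLast_mem _
        obtain ⟨h1, h2, h3⟩ := (hl2 z).1 hzl
        refine ⟨hcm z h1, fun h => h h3, fun t ht hqt hst => ?_⟩
        have h4 : tᶜ ⊆ z := by
          have := compl_subset_compl.2 hst
          rwa [compl_compl] at this
        have h5 : tᶜ ∈ s :: l' := (hl2 _).2 ⟨hcm t ht, fun h => h2 (h4 h), hqt⟩
        have h6 := getLast_le _ (by simp) hl1 _ h5
        have h7 : tᶜ = z := Set.Subset.antisymm h4 h6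
        rw [← h7, compl_compl]
      have htel := telescope (fun s => g • ℓ s) (d g) s l' hchain2
      have hmul : ((s :: l').map (fun s => g • ℓ s)).prod = g • ((s :: l').map ℓ).prod := by
        generalize (s :: l') = L
        induction L with
        | nil => simp
        | cons a L ih =>
          rw [List.map_cons, List.prod_cons, ih, List.map_cons, List.prod_cons]
          exact (smul_mul' g (ℓ a) _).symm
      rw [hlg, hwpq, List.map_map]
      have h8 : (ℓ ∘ fun s => g • s) = fun s => d g s * (g • ℓ s) * (d g sᶜ)⁻¹ := by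
        funext s
        exact hℓg g s
      rw [h8, htel, hmul, hd hhead, hd hlast]
  refine ⟨fun g => w v (g • v) * c g v, ?_, ?_⟩
  · intro g _ h _
    change w v ((g * h) • v) * c (g * h) v = w v (g • v) * c g v * g • (w v (h • v) * c h v)
    rw [mul_smul, ← hw1 v (g • v) (g • h • v), key, hcc, smul_mul']
    group
  · intro g hg
    change w v (g • v) * c g v = φ₀ g
    have h1 : g • v = v := hg
    have h2 : c g v = φ₀ g := by
      simp only [c]
      rw [h1, hγv]
      simp
    rw [h2, h1, hww, one_mul]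

end main

end Pool.Agent.Y28.LR
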